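import Pool.Agent.Helper73.LCY.DerD

/-!
Brackets and divisorial valuations: the basic inequality (B), existence and uniqueness of the
value of the 2-form (rows BR8, BR9, BR8s, B0).
-/

open Polynomial

namespace LCY

namespace H73

variable {L : Type} [Field L] [Algebra ℂ L]

theorem br_add_right (ω : Bracket L) (a b c : L) : ω.br a (b + c) = ω.br a b + ω.br a c := by
  rw [ω.skew a (b + c), ω.add_left, ω.skew a b, ω.skew a c]; ring

theorem br_mul_right (ω : Bracket L) (a b c : L) :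
    ω.br a (b * c) = b * ω.br a c + c * ω.br a b := by
  rw [ω.skew a (b * c), ω.mul_left, ω.skew a b, ω.skew a c]; ring

theorem br_const_right (ω : Bracket L) (c : L) (z : ℂ) : ω.br c (algebraMap ℂ L z) = 0 := by
  rw [ω.skew, ω.const_left, neg_zero]

/-- The derivation `b ↦ c • {a, b}`. -/
noncomputable def derR (ω : Bracket L) (c a : L) : Derivation ℂ L L :=
  Derivation.mk'
    { toFun := fun b => c * ω.br a b
      map_add' := fun x y => by rw [br_add_right, mul_add]
      map_smul' := fun z x => by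
        rw [Algebra.smul_def, br_mul_right, br_const_right, mul_zero, add_zero,
          RingHom.id_apply, Algebra.smul_def]; ring }
    (fun x y => by
      simp only [LinearMap.coe_mk, AddHom.coe_mk, smul_eq_mul]
      rw [br_mul_right]; ring)

theorem derR_apply (ω : Bracket L) (c a b : L) : derR ω c a b = c * ω.br a b := rfl

/-- A derivation that kills two algebraically independent functions is zero. -/
theorem der_eq_zero (htr : Algebra.trdeg ℂ L = 2) {t π : L}
    (h : AlgebraicIndependent ℂ ![t, π]) (D : Derivation ℂ L L) (h1 : D t = 0) (h2 : D π = 0)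
    (a : L) : D a = 0 := by
  have hspan := span_of_indep htr h
  have key : ∀ x ∈ Submodule.span L {KaehlerDifferential.D ℂ L t, KaehlerDifferential.D ℂ L π},
      D.liftKaehlerDifferential x = 0 := by
    intro x hx
    induction hx using Submodule.span_induction with
    | mem x hx =>
      rcases hx with rfl | hx
      · rw [Derivation.liftKaehlerDifferential_comp_D, h1]
      · rw [Set.mem_singleton_iff.1 hx, Derivation.liftKaehlerDifferential_comp_D, h2]
    | zero => rw [map_zero]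
    | add x y _ _ hx hy => rw [map_add, hx, hy, add_zero]
    | smul c x _ hx => rw [map_smul, hx, smul_zero]
  have h3 := key (KaehlerDifferential.D ℂ L a) (by rw [hspan]; trivial)
  rwa [Derivation.liftKaehlerDifferential_comp_D] at h3

/-- The bracket of two algebraically independent functions does not vanish. -/
theorem br_ne_zero (htr : Algebra.trdeg ℂ L = 2) (ω : Bracket L) {t π : L}
    (h : AlgebraicIndependent ℂ ![t, π]) : ω.br t π ≠ 0 := by
  intro h0
  have h1 : ∀ b, ω.br t b = 0 := by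
    intro b
    have := der_eq_zero htr h (derR ω 1 t) (by rw [derR_apply, ω.alt, mul_zero])
      (by rw [derR_apply, h0, mul_zero]) b
    rwa [derR_apply, one_mul] at this
  have h2 : ∀ b, ω.br π b = 0 := by
    intro b
    have := der_eq_zero htr h (derR ω 1 π) (by rw [derR_apply, ω.skew, h0, neg_zero, mul_zero])
      (by rw [derR_apply, ω.alt, mul_zero]) b
    rwa [derR_apply, one_mul] at this
  obtain ⟨a, b, hab⟩ := ω.ne_zero
  apply hab
  have := der_eq_zero htr h (derR ω 1 a) (by rw [derR_apply, ω.skew, h1, neg_zero, mul_zero])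
    (by rw [derR_apply, ω.skew, h2, neg_zero, mul_zero]) b
  rwa [derR_apply, one_mul] at this

/-- The formula for the bracket in terms of the two partial derivations. -/
theorem br_formula (htr : Algebra.trdeg ℂ L = 2) (ω : Bracket L) {t π : L}
    (h : AlgebraicIndependent ℂ ![t, π]) (a b : L) :
    ω.br a b = (derR ω (-(ω.br t π)⁻¹) π a * derR ω (ω.br t π)⁻¹ t b
      - derR ω (ω.br t π)⁻¹ t a * derR ω (-(ω.br t π)⁻¹) π b) * ω.br t π := by
  have hne := br_ne_zero htr ω h
  -- first in the variable `b`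
  have h1 : ∀ a b, ω.br a b = derR ω (-(ω.br t π)⁻¹) π b * ω.br a t
      + derR ω (ω.br t π)⁻¹ t b * ω.br a π := by
    intro a b
    let D : Derivation ℂ L L := derR ω 1 a - (ω.br a t) • derR ω (-(ω.br t π)⁻¹) π
      - (ω.br a π) • derR ω (ω.br t π)⁻¹ t
    have hD : ∀ b, D b = ω.br a b - ω.br a t * (-(ω.br t π)⁻¹ * ω.br π b)
        - ω.br a π * ((ω.br t π)⁻¹ * ω.br t b) := by
      intro b
      simp only [D, Derivation.sub_apply, Derivation.smul_apply, derR_apply, smul_eq_mul, one_mul]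
    have hz := der_eq_zero htr h D
      (by rw [hD, ω.alt t, ω.skew π t]; field_simp; ring)
      (by rw [hD, ω.alt π]; field_simp; ring) b
    rw [hD] at hz
    rw [derR_apply, derR_apply]
    linear_combination hz
  have hat : ω.br a t = - ω.br t a := ω.skew a t
  have haπ : ω.br a π = - ω.br π a := ω.skew a π
  rw [h1 a b, hat, haπ]
  simp only [derR_apply]
  field_simp
  ring

/-- The summary for a fixed pair `(t, π)`. -/
theorem basic (htr : Algebra.trdeg ℂ L = 2)
    (hfg : ∃ s : Finset L, IntermediateField.adjoin ℂ (s : Set L) = ⊤) (ω : Bracket L)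
    (v : DVal L) {t π : L} (ht : ResTr v.v t) (hπ : π ≠ 0) (hv : v.v π = 1) :
    ω.br t π ≠ 0 ∧
    (∀ a, v.Int a → v.Int (derR ω (-(ω.br t π)⁻¹) π a)) ∧
    (∀ a, v.Int a → v.Int (derR ω (ω.br t π)⁻¹ t a)) := by
  have hind := indep_res v ht hπ hv
  have hne := br_ne_zero htr ω hind
  have := finite_adjoin htr hfg hind
  have hπK : π ∈ IntermediateField.adjoin ℂ ({t, π} : Set L) :=
    IntermediateField.subset_adjoin _ _ (by simp)
  refine ⟨hne, ?_, ?_⟩
  · refine der_int v _ _ hπ hv hπK ?_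
    intro x hx hi
    refine der_int_base v _ ht hπ hv ?_ ?_ hx hi
    · rw [derR_apply, ω.skew π t, neg_mul_neg, inv_mul_cancel₀ hne]; exact int_one v
    · rw [derR_apply, ω.alt, mul_zero]; exact int_zero v
  · refine der_int v _ _ hπ hv hπK ?_
    intro x hx hi
    refine der_int_base v _ ht hπ hv ?_ ?_ hx hi
    · rw [derR_apply, ω.alt, mul_zero]; exact int_zero v
    · rw [derR_apply, inv_mul_cancel₀ hne]; exact int_one v

theorem int_of_mul (v : DVal L) {a c : L} (hc : c ≠ 0) (h : v.Int a) (k : ℤ)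
    (hk : v.v c = k) : a * c = 0 ∨ k ≤ v.v (a * c) := by
  by_cases h0 : a = 0
  · left; rw [h0, zero_mul]
  right
  rw [v.map_mul _ _ h0 hc, hk]
  have := h.resolve_left h0
  linarith

/-- A derivation preserving the valuation ring lowers values by at most one. -/
theorem der_lower (v : DVal L) (D : Derivation ℂ L L) (hD : ∀ a, v.Int a → v.Int (D a))
    {π : L} (hπ : π ≠ 0) (hv : v.v π = 1) {a : L} (ha : a ≠ 0) (h : D a ≠ 0) :
    v.v a - 1 ≤ v.v (D a) := by
  have hu0 : a * π ^ (-(v.v a)) ≠ 0 := mul_ne_zero ha (zpow_ne_zero _ hπ)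
  have hzp : ∀ n : ℤ, v.v (π ^ n) = n := by
    intro n
    rcases n with n | n
    · rw [Int.ofNat_eq_natCast, zpow_natCast, v_pow v hπ, hv, mul_one]
    · rw [zpow_negSucc, v_inv v (pow_ne_zero _ hπ), v_pow v hπ, hv, mul_one]
      simp [Int.negSucc_eq]
  have hu : v.v (a * π ^ (-(v.v a))) = 0 := by
    rw [v.map_mul _ _ ha (zpow_ne_zero _ hπ), hzp]; ring
  have h1 : a = (a * π ^ (-(v.v a))) * π ^ (v.v a) := by
    rw [mul_assoc, ← zpow_add₀ hπ, neg_add_cancel, zpow_zero, mul_one]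
  set u := a * π ^ (-(v.v a)) with hudef
  have hDu : v.Int (D u) := hD u (Or.inr hu.ge)
  have hDπ : v.Int (D π) := hD π (Or.inr (by rw [hv]; norm_num))
  have hDz : D (π ^ (v.v a)) = (v.v a : L) * π ^ (v.v a - 1) * D π := by
    rw [D.leibniz_zpow]
    simp [smul_eq_mul, zsmul_eq_mul]
    ring
  have h2 : D a = (u * ((v.v a : ℤ) : L) * D π + π * D u) * π ^ (v.v a - 1) := by
    conv_lhs => rw [h1]
    rw [D.leibniz, smul_eq_mul, smul_eq_mul, hDz]
    have : π ^ (v.v a) = π * π ^ (v.v a - 1) := by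
      rw [← zpow_one_add₀ hπ]; congr 1; ring
    rw [this]; ring
  have hcast : v.Int ((v.v a : ℤ) : L) := by
    have : ((v.v a : ℤ) : L) = algebraMap ℂ L ((v.v a : ℤ) : ℂ) := by rw [map_intCast]
    rw [this]; exact int_const v _
  have hX : v.Int (u * ((v.v a : ℤ) : L) * D π + π * D u) :=
    int_add v (int_mul v (int_mul v (Or.inr hu.ge) hcast) hDπ)
      (int_mul v (Or.inr (by rw [hv]; norm_num)) hDu)
  rw [h2] at h ⊢
  exact (int_of_mul v (zpow_ne_zero _ hπ) hX _ (hzp _)).resolve_left h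

/-- If the derivation moreover kills a uniformizer it does not lower values. -/
theorem der_keep (v : DVal L) (D : Derivation ℂ L L) (hD : ∀ a, v.Int a → v.Int (D a))
    {π : L} (hπ : π ≠ 0) (hv : v.v π = 1) (hDπ : D π = 0) {a : L} (ha : a ≠ 0) (h : D a ≠ 0) :
    v.v a ≤ v.v (D a) := by
  have hzp : ∀ n : ℤ, v.v (π ^ n) = n := by
    intro n
    rcases n with n | n
    · rw [Int.ofNat_eq_natCast, zpow_natCast, v_pow v hπ, hv, mul_one]
    · rw [zpow_negSucc, v_inv v (pow_ne_zero _ hπ), v_pow v hπ, hv, mul_one]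
      simp [Int.negSucc_eq]
  have hu0 : a * π ^ (-(v.v a)) ≠ 0 := mul_ne_zero ha (zpow_ne_zero _ hπ)
  have hu : v.v (a * π ^ (-(v.v a))) = 0 := by
    rw [v.map_mul _ _ ha (zpow_ne_zero _ hπ), hzp]; ring
  have h1 : a = (a * π ^ (-(v.v a))) * π ^ (v.v a) := by
    rw [mul_assoc, ← zpow_add₀ hπ, neg_add_cancel, zpow_zero, mul_one]
  set u := a * π ^ (-(v.v a)) with hudef
  have hDu : v.Int (D u) := hD u (Or.inr hu.ge)
  have h2 : D a = D u * π ^ (v.v a) := by
    conv_lhs => rw [h1]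
    rw [D.leibniz, smul_eq_mul, smul_eq_mul, D.leibniz_zpow, hDπ]
    simp; ring
  rw [h2] at h ⊢
  exact (int_of_mul v (zpow_ne_zero _ hπ) hDu _ (hzp _)).resolve_left h

/-- (B0) The bracket of two integral elements has value at least `- k`. -/
theorem br_int_int (htr : Algebra.trdeg ℂ L = 2)
    (hfg : ∃ s : Finset L, IntermediateField.adjoin ℂ (s : Set L) = ⊤) (ω : Bracket L)
    (v : DVal L) {t π : L} (ht : ResTr v.v t) (hπ : π ≠ 0) (hv : v.v π = 1) {a b : L}
    (ha : v.Int a) (hb : v.Int b) : ω.br a b = 0 ∨ v.v (ω.br t π) ≤ v.v (ω.br a b) := by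
  obtain ⟨hne, h1, h2⟩ := basic htr hfg ω v ht hπ hv
  rw [br_formula htr ω (indep_res v ht hπ hv) a b]
  exact int_of_mul v hne (int_sub v (int_mul v (h1 a ha) (h2 b hb))
    (int_mul v (h2 a ha) (h1 b hb))) _ rfl

/-- (B) The basic inequality for a fixed pair `(t, π)`. -/
theorem br_ineq (htr : Algebra.trdeg ℂ L = 2)
    (hfg : ∃ s : Finset L, IntermediateField.adjoin ℂ (s : Set L) = ⊤) (ω : Bracket L)
    (v : DVal L) {t π : L} (ht : ResTr v.v t) (hπ : π ≠ 0) (hv : v.v π = 1) {a b : L}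
    (ha : a ≠ 0) (hb : b ≠ 0) (hab : ω.br a b ≠ 0) :
    v.v a + v.v b - 1 + v.v (ω.br t π) ≤ v.v (ω.br a b) := by
  obtain ⟨hne, h1, h2⟩ := basic htr hfg ω v ht hπ hv
  have hf := br_formula htr ω (indep_res v ht hπ hv) a b
  set D1 := derR ω (-(ω.br t π)⁻¹) π with hD1
  set D2 := derR ω (ω.br t π)⁻¹ t with hD2
  have hD1π : D1 π = 0 := by rw [hD1, derR_apply, ω.alt, mul_zero]
  -- bound of a product
  have hprod : ∀ x y : L, x ≠ 0 → y ≠ 0 → D1 x * D2 y = 0 ∨
      v.v x + v.v y - 1 ≤ v.v (D1 x * D2 y) := by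
    intro x y hx hy
    by_cases hx0 : D1 x = 0
    · left; rw [hx0, zero_mul]
    by_cases hy0 : D2 y = 0
    · left; rw [hy0, mul_zero]
    right
    rw [v.map_mul _ _ hx0 hy0]
    have e1 := der_keep v D1 h1 hπ hv hD1π hx hx0
    have e2 := der_lower v D2 h2 hπ hv hy hy0
    linarith
  have hX : D1 a * D2 b - D2 a * D1 b ≠ 0 := by
    intro h; apply hab; rw [hf, h, zero_mul]
  have hXv : v.v a + v.v b - 1 ≤ v.v (D1 a * D2 b - D2 a * D1 b) := by
    have hp1 := hprod a b ha hb
    have hp2 := hprod b a hb ha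
    rcases hp1 with hp1 | hp1
    · rcases hp2 with hp2 | hp2
      · exfalso; apply hX; rw [hp1, mul_comm (D2 a), hp2, sub_zero]
      · have h3 : D1 a * D2 b - D2 a * D1 b = -(D1 b * D2 a) := by rw [hp1]; ring
        have h4 : D1 b * D2 a ≠ 0 := by
          intro h; apply hX; rw [h3, h, neg_zero]
        rw [h3, v_neg v h4]; linarith
    · by_cases h4 : D1 a * D2 b = 0
      · rcases hp2 with hp2 | hp2
        · exfalso; apply hX; rw [h4, mul_comm (D2 a), hp2, sub_zero]
        · have h3 : D1 a * D2 b - D2 a * D1 b = -(D1 b * D2 a) := by rw [h4]; ring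
          have h5 : D1 b * D2 a ≠ 0 := by
            intro h; apply hX; rw [h3, h, neg_zero]
          rw [h3, v_neg v h5]; linarith
      · rcases hp2 with hp2 | hp2
        · have h3 : D1 a * D2 b - D2 a * D1 b = D1 a * D2 b := by
            rw [mul_comm (D2 a), hp2, sub_zero]
          rw [h3]; exact hp1
        · by_cases h5 : D1 b * D2 a = 0
          · have h3 : D1 a * D2 b - D2 a * D1 b = D1 a * D2 b := by
              rw [mul_comm (D2 a), h5, sub_zero]
            rw [h3]; exact hp1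
          · have h6 : D1 a * D2 b - D2 a * D1 b = D1 a * D2 b + -(D1 b * D2 a) := by ring
            rw [h6] at hX ⊢
            refine le_trans (le_min hp1 ?_) (v.map_add _ _ h4 (neg_ne_zero.2 h5) hX)
            rw [v_neg v h5]; linarith
  rw [hf, v.map_mul _ _ hX hne]
  linarith

/-- The value of the bracket at a pair `(t, π)` does not depend on the pair. -/
theorem br_val_unique (htr : Algebra.trdeg ℂ L = 2)
    (hfg : ∃ s : Finset L, IntermediateField.adjoin ℂ (s : Set L) = ⊤) (ω : Bracket L)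
    (v : DVal L) {t π t' π' : L} (ht : ResTr v.v t) (hπ : π ≠ 0) (hv : v.v π = 1)
    (ht' : ResTr v.v t') (hπ' : π' ≠ 0) (hv' : v.v π' = 1) :
    v.v (ω.br t π) = v.v (ω.br t' π') := by
  have hne := (basic htr hfg ω v ht hπ hv).1
  have hne' := (basic htr hfg ω v ht' hπ' hv').1
  have hit := resTr_ne v ht
  have hit' := resTr_ne v ht'
  have e1 := br_ineq htr hfg ω v ht' hπ' hv' hit.1 hπ hne
  have e2 := br_ineq htr hfg ω v ht hπ hv hit'.1 hπ' hne'
  rw [hit.2, hv] at e1
  rw [hit'.2, hv'] at e2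
  linarith

/-- BR8 and BR8s for every finitely generated field of transcendence degree two. -/
theorem br8s (htr : Algebra.trdeg ℂ L = 2)
    (hfg : ∃ s : Finset L, IntermediateField.adjoin ℂ (s : Set L) = ⊤) (ω : Bracket L)
    (v : DVal L) : ∃ k : ℤ,
    (∀ t π, ResTr v.v t → π ≠ 0 → v.v π = 1 → ω.br t π ≠ 0 ∧ v.v (ω.br t π) = - k) ∧
    (∀ a b, v.Int a → v.Int b → ω.br a b = 0 ∨ - k ≤ v.v (ω.br a b)) ∧
    (∀ a b, a ≠ 0 → b ≠ 0 → ω.br a b ≠ 0 → v.v a + v.v b - 1 - k ≤ v.v (ω.br a b)) := by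
  obtain ⟨t0, ht0⟩ := v.exists_res
  obtain ⟨π0, hπ0, hv0⟩ := v.exists_unif
  refine ⟨- v.v (ω.br t0 π0), ?_, ?_, ?_⟩
  · intro t π ht hπ hv
    refine ⟨(basic htr hfg ω v ht hπ hv).1, ?_⟩
    rw [neg_neg]
    exact br_val_unique htr hfg ω v ht hπ hv ht0 hπ0 hv0
  · intro a b ha hb
    rw [neg_neg]
    exact br_int_int htr hfg ω v ht0 hπ0 hv0 ha hb
  · intro a b ha hb hab
    have := br_ineq htr hfg ω v ht0 hπ0 hv0 ha hb hab
    linarith

/-- The value of the 2-form exists. -/
theorem exists_wt (htr : Algebra.trdeg ℂ L = 2)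
    (hfg : ∃ s : Finset L, IntermediateField.adjoin ℂ (s : Set L) = ⊤) (ω : Bracket L)
    (v : DVal L) : ∃ k : ℤ, ω.Wt v k := by
  obtain ⟨k, hk, _⟩ := br8s htr hfg ω v
  obtain ⟨t0, ht0⟩ := v.exists_res
  obtain ⟨π0, hπ0, hv0⟩ := v.exists_unif
  obtain ⟨h1, h2⟩ := hk t0 π0 ht0 hπ0 hv0
  exact ⟨k, t0, π0, ht0, hπ0, hv0, h1, h2⟩

/-- Everything in terms of `Wt`. -/
theorem wt_all (htr : Algebra.trdeg ℂ L = 2)
    (hfg : ∃ s : Finset L, IntermediateField.adjoin ℂ (s : Set L) = ⊤) (ω : Bracket L)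
    (v : DVal L) {k : ℤ} (hk : ω.Wt v k) :
    (∀ t π, ResTr v.v t → π ≠ 0 → v.v π = 1 → ω.br t π ≠ 0 ∧ v.v (ω.br t π) = - k) ∧
    (∀ a b, v.Int a → v.Int b → ω.br a b = 0 ∨ - k ≤ v.v (ω.br a b)) ∧
    (∀ a b, a ≠ 0 → b ≠ 0 → ω.br a b ≠ 0 → v.v a + v.v b - 1 - k ≤ v.v (ω.br a b)) ∧
    (∀ k', ω.Wt v k' → k' = k) := by
  obtain ⟨m, h1, h2, h3⟩ := br8s htr hfg ω v
  obtain ⟨t, π, ht, hπ, hv, hne, hval⟩ := hk
  have hmk : m = k := by
    have := (h1 t π ht hπ hv).2
    rw [hval] at this; linarith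
  subst hmk
  refine ⟨h1, h2, h3, ?_⟩
  rintro k' ⟨t', π', ht', hπ', hv', _, hval'⟩
  have := (h1 t' π' ht' hπ' hv').2
  rw [hval'] at this; linarith

end H73

end LCY
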