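import Pool.Agent.Helper73.LCY.NoeG
import Pool.Agent.Helper62.LCY.EXC

/-!
Noether's formula (row NOE).
-/

open Polynomial

namespace LCY

namespace H73

open H62 H81

noncomputable section

variable {L : Type} [Field L] [Algebra ℂ L]

/-- Noether's formula if the direction `none` is not tangent to the curve. -/
theorem noe_aux {P : Coord L} {v w : DVal L} (hv : Through P.loc v) (hw : Through P.loc w)
    (hvw : ¬ v.Same w) (hn : ¬ Through (P.st none).loc v) :
    {R' | Next P.loc R' ∧ inter R' v w ≠ 0}.Finite ∧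
      (inter P.loc v w : ℤ) = mul P.loc v * mul P.loc w +
        ∑ᶠ R' ∈ {R' | Next P.loc R'}, (inter R' v w : ℤ) := by
  classical
  obtain ⟨f, hf, h0⟩ := (st_A6 L P v).1 hv
  obtain ⟨g, hg, hg0⟩ := (st_A6 L P w).1 hw
  have hof := H62.oe_ordn hf.1.ne_zero
  have hm' : cf f (0, ordn f) ≠ 0 := by
    intro h
    apply hn
    rw [through_st_iff hf h0, ← r0_coeff, r0_bq_none hof.1, lq_coeff, if_pos (Nat.zero_le _),
      Nat.sub_zero]
    exact h
  have hfg : ¬ f ∣ g := fun h => hvw
    (H98.adic_same hf (H98.adic_assoc hg (hf.1.associated_of_dvd hg.1 h).symm))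
  obtain ⟨-, h1⟩ := noe_count hf h0 hfg hg.1.ne_zero hm'
  obtain ⟨h2, h3⟩ := chart_sum hf h0 hg hg0 hfg hm'
  -- the support
  have hsupp : ∀ R', Next P.loc R' → inter R' v w ≠ 0 →
      ∃ c ∈ ZZ f g, (P.st (some c)).loc = R' := by
    intro R' hR' hi
    obtain ⟨o, rfl⟩ := (H98.next_iff).1 hR'
    have h4 : Through (P.st o).loc v ∧ Through (P.st o).loc w := by
      unfold inter at hi
      by_contra h
      rw [if_neg h] at hi
      exact hi rfl
    cases o with
    | none => exact absurd h4.1 hn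
    | some c =>
      refine ⟨c, (mem_ZZ hf.1.ne_zero hg.1.ne_zero).2 ⟨?_, ?_⟩, rfl⟩
      · exact (through_st_iff hf h0 _).1 h4.1
      · exact (through_st_iff hg hg0 _).1 h4.2
  have hinj : Function.Injective (fun c : ℂ => (P.st (some c)).loc) := by
    intro c c' h
    have := H98.st_loc_inj h
    exact Option.some.inj this
  refine ⟨?_, ?_⟩
  · refine Set.Finite.subset ((ZZ f g).finite_toSet.image (fun c : ℂ => (P.st (some c)).loc)) ?_
    rintro R' ⟨h4, h5⟩
    obtain ⟨c, hc, rfl⟩ := hsupp R' h4 h5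
    exact ⟨c, hc, rfl⟩
  · have h4 : ∑ᶠ R' ∈ {R' | Next P.loc R'}, (inter R' v w : ℤ) =
        ∑ c ∈ ZZ f g, (inter (P.st (some c)).loc v w : ℤ) := by
      rw [← finsum_mem_coe_finset (fun c : ℂ => (inter (P.st (some c)).loc v w : ℤ)),
        ← finsum_mem_image (f := fun R' => (inter R' v w : ℤ))
          (g := fun c : ℂ => (P.st (some c)).loc) hinj.injOn]
      apply finsum_mem_inter_support_eq
      ext R'
      constructor
      · rintro ⟨h5, h6⟩
        refine ⟨?_, h6⟩
        have h7 : inter R' v w ≠ 0 := by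
          intro h; apply h6; change ((inter R' v w : ℕ) : ℤ) = 0; rw [h]; rfl
        obtain ⟨c, hc, rfl⟩ := hsupp R' h5 h7
        exact ⟨c, hc, rfl⟩
      · rintro ⟨⟨c, hc, rfl⟩, h6⟩
        exact ⟨H98.next_iff.2 ⟨some c, rfl⟩, h6⟩
    rw [h4, (st_A7 L P v f hf h0).1, (st_A7 L P w g hg hg0).1]
    have hi : inter P.loc v w =
        max 1 (Module.finrank ℂ (P.loc ⧸ (pid P.loc v ⊔ pid P.loc w))) := by
      unfold inter
      rw [if_pos ⟨hv, hw⟩]
    have hpos : 1 ≤ ordn g * ordn f :=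
      Nat.mul_pos (st_A7 L P w g hg hg0).2 (st_A7 L P v f hf h0).2
    rw [hi, pid_eq hg hg0, h1, max_eq_right (by omega), h2]
    have h5 : ∑ c ∈ ZZ f g, inter (P.st (some c)).loc v w =
        ∑ c ∈ ZZ f g, Module.finrank ℂ ((P.st (some c)).loc ⧸
          (pid (P.st (some c)).loc v ⊔ pid (P.st (some c)).loc w)) := by
      refine Finset.sum_congr rfl fun c hc => ?_
      obtain ⟨h6, h7, h8⟩ := h3 c hc
      unfold inter
      rw [if_pos ⟨h6, h7⟩, max_eq_right h8]
    rw [← h5]
    push_cast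
    ring

/-- There are coordinates such that the direction `none` is not tangent. -/
theorem exists_transversal (P : Coord L) {v : DVal L} (hv : Through P.loc v) :
    ∃ Q : Coord L, Q.loc = P.loc ∧ ¬ Through (Q.st none).loc v := by
  obtain ⟨f, hf, h0⟩ := (st_A6 L P v).1 hv
  have hof := H62.oe_ordn hf.1.ne_zero
  obtain ⟨c, hc⟩ : ∃ c : ℂ, (lp (ordn f) f).eval c ≠ 0 := by
    by_contra h
    push Not at h
    exact lp_ne hof (Polynomial.funext fun c => by rw [h c, eval_zero])
  have h1 : ¬ Through (P.st (some c)).loc v := by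
    rw [through_st_iff hf h0, cf_strict hof.1]
    exact hc
  obtain ⟨Q, hQ, hx, hy, -⟩ := H62.exists_adapted P (some c)
  obtain ⟨Q', hx', hy'⟩ := Q.swap
  refine ⟨Q', (H62.swap_loc hx' hy').trans hQ, ?_⟩
  have h2 : (Q'.st none).loc = (P.st (some c)).loc := by
    apply H62.loc_congr
    · rw [Q'.st_none_x, hy', hx]
    · rw [Q'.st_none_y, hx', hy', hy]
  rw [h2]
  exact h1

/-- **NOE.** -/
theorem st_NOE : ST_NOE := by
  intro L _ _ P v w hv hw hvw
  obtain ⟨Q, hQ, hn⟩ := exists_transversal P hv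
  rw [← hQ] at hv hw ⊢
  exact noe_aux hv hw hvw hn

end

end H73

end LCY
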