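import Pool.Agent.Helper11.LCY.Stmts

/-!
Local intersection numbers of two curves at a point: the dimension of the quotient of the local
ring by the sum of the two prime ideals.
-/

open Polynomial

namespace LCY

noncomputable section

variable {L : Type} [Field L] [Algebra ℂ L]

/-- The ideal of the curve `v` in the local ring `R`. -/
def pid (R : Subalgebra ℂ L) (v : DVal L) : Ideal R := Ideal.span {z : R | v.Pos (z : L)}

open Classical in
/-- The local intersection number of two curves at a point. -/
def inter (R : Subalgebra ℂ L) (v w : DVal L) : ℕ :=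
  if Through R v ∧ Through R w then max 1 (Module.finrank ℂ (R ⧸ (pid R v ⊔ pid R w))) else 0

/-- BEZ. Bezout's theorem for two curves of the plane. -/
def ST_BEZ : Prop := ∀ (L : Type) [Field L] [Algebra ℂ L] (S : Coord L) (v w : DVal L),
  (∃ R ∈ plane S, Through R v) → (∃ R ∈ plane S, Through R w) → ¬ v.Same w →
  {R | R ∈ plane S ∧ inter R v w ≠ 0}.Finite ∧
    deg S v * deg S w = ∑ᶠ R ∈ plane S, (inter R v w : ℤ)

/-- NOE. Noether's formula: two curves through a point. -/
def ST_NOE : Prop := ∀ (L : Type) [Field L] [Algebra ℂ L] (P : Coord L) (v w : DVal L),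
  Through P.loc v → Through P.loc w → ¬ v.Same w →
  {R' | Next P.loc R' ∧ inter R' v w ≠ 0}.Finite ∧
    (inter P.loc v w : ℤ) = mul P.loc v * mul P.loc w +
      ∑ᶠ R' ∈ {R' | Next P.loc R'}, (inter R' v w : ℤ)

/-- EXC. The exceptional curve and a curve through a point. -/
def ST_EXC : Prop := ∀ (L : Type) [Field L] [Algebra ℂ L] (P : Coord L) (v w : DVal L),
  IsOrd P.loc v → Through P.loc w →
  {R' | Next P.loc R' ∧ inter R' v w ≠ 0}.Finite ∧
    mul P.loc w = ∑ᶠ R' ∈ {R' | Next P.loc R'}, (inter R' v w : ℤ)

end

end LCY
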