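import Pool.Agent.Helper27.LCY.BrStmts
import Pool.Agent.Helper27.LCY.BR1
import Pool.Agent.Helper73.LCY.DerE

/-!
Rows BR8 and BR9 for the function field of a surface.
-/

open Polynomial

namespace LCY

namespace H73

/-- The function field of a surface is finitely generated. -/
theorem fg_of_hasDim {N : ℕ} (Y : Var N) (hY : Y.HasDim 2) :
    ∃ s : Finset Y.L, IntermediateField.adjoin ℂ (s : Set Y.L) = ⊤ := by
  classical
  refine ⟨(Set.finite_range Y.x).toFinset, ?_⟩
  rw [Set.Finite.coe_toFinset]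
  exact (br1 _ Y hY).2

theorem st_BR8 : ST_BR8 := by
  intro N Y hY B v
  obtain ⟨k, h1, _, _⟩ := br8s (br1 _ Y hY).1 (fg_of_hasDim Y hY) B v
  exact ⟨k, h1⟩

theorem st_BR9 : ST_BR9 := by
  intro N Y hY B v k hk a b ha hb hab
  exact (wt_all (br1 _ Y hY).1 (fg_of_hasDim Y hY) B v hk).2.2.1 a b ha hb hab

end H73

end LCY
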