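import Mathlib

/-!
The dimension of a finite dimensional quotient of an algebra over the complex numbers is the sum
of the dimensions of its localisations.
-/

namespace LCY

namespace H73

noncomputable section

/-- A prime of a finite dimensional algebra is the kernel of a homomorphism to `ℂ`. -/
theorem exists_hom_of_prime {Q : Type} [CommRing Q] [Algebra ℂ Q] [Module.Finite ℂ Q]
    (p : Ideal Q) [hp : p.IsPrime] : ∃ χ : Q →ₐ[ℂ] ℂ, RingHom.ker χ = p := by
  have : IsArtinianRing Q := IsArtinianRing.of_finite ℂ Q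
  have : p.IsMaximal := IsArtinianRing.isMaximal_of_isPrime p
  let _ : Field (Q ⧸ p) := Ideal.Quotient.field p
  have : Module.Finite ℂ (Q ⧸ p) :=
    Module.Finite.of_surjective (Ideal.Quotient.mkₐ ℂ p).toLinearMap Ideal.Quotient.mk_surjective
  have : Algebra.IsAlgebraic ℂ (Q ⧸ p) := Algebra.IsAlgebraic.of_finite ℂ (Q ⧸ p)
  have hb : Function.Bijective (algebraMap ℂ (Q ⧸ p)) :=
    IsAlgClosed.algebraMap_bijective_of_isIntegral
  let e : ℂ ≃ₐ[ℂ] (Q ⧸ p) := AlgEquiv.ofBijective (Algebra.ofId ℂ (Q ⧸ p)) hb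
  refine ⟨e.symm.toAlgHom.comp (Ideal.Quotient.mkₐ ℂ p), ?_⟩
  ext a
  rw [RingHom.mem_ker]
  change e.symm (Ideal.Quotient.mk p a) = 0 ↔ _
  rw [EmbeddingLike.map_eq_zero_iff, Ideal.Quotient.eq_zero_iff_mem]

/-- **LOCSUM.** -/
theorem locsum {B : Type} [CommRing B] [Algebra ℂ B] (I : Ideal B) [Module.Finite ℂ (B ⧸ I)]
    {ι : Type} [Fintype ι] (S : ι → Type) [∀ i, CommRing (S i)] [∀ i, Algebra ℂ (S i)]
    [∀ i, Algebra B (S i)] [∀ i, IsScalarTower ℂ B (S i)] (χ : ι → B →ₐ[ℂ] ℂ)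
    (hinj : Function.Injective χ) (hI : ∀ i, ∀ b ∈ I, χ i b = 0)
    (hall : ∀ χ' : B →ₐ[ℂ] ℂ, (∀ b ∈ I, χ' b = 0) → ∃ i, χ' = χ i)
    (hunit : ∀ i b, χ i b ≠ 0 → IsUnit (algebraMap B (S i) b))
    (hsurj : ∀ i (s : S i), ∃ a b : B, χ i b ≠ 0 ∧ s * algebraMap B (S i) b = algebraMap B (S i) a)
    (hker : ∀ i (a : B), algebraMap B (S i) a = 0 → ∃ b : B, χ i b ≠ 0 ∧ b * a = 0) :
    Module.finrank ℂ (B ⧸ I) =
      ∑ i, Module.finrank ℂ (S i ⧸ I.map (algebraMap B (S i))) := by
  classical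
  have : IsArtinianRing (B ⧸ I) := IsArtinianRing.of_finite ℂ (B ⧸ I)
  -- the homomorphisms of the quotient
  let ψ : ι → (B ⧸ I) →ₐ[ℂ] ℂ := fun i => Ideal.Quotient.liftₐ I (χ i) (hI i)
  have hψ : ∀ i b, ψ i (Ideal.Quotient.mk I b) = χ i b := fun i b => rfl
  let P : ι → PrimeSpectrum (B ⧸ I) := fun i => ⟨RingHom.ker (ψ i), RingHom.ker_isPrime (ψ i)⟩
  have hP : Function.Bijective P := by
    constructor
    · intro i j hij
      apply hinj
      ext b
      have h1 : RingHom.ker (ψ i) = RingHom.ker (ψ j) := congrArg PrimeSpectrum.asIdeal hij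
      have h2 : Ideal.Quotient.mk I (b - algebraMap ℂ B (χ i b)) ∈ RingHom.ker (ψ i) := by
        rw [RingHom.mem_ker]
        change ψ i (Ideal.Quotient.mk I _) = 0
        rw [hψ, map_sub, AlgHom.commutes, Algebra.algebraMap_self, RingHom.id_apply, sub_self]
      rw [h1, RingHom.mem_ker] at h2
      change ψ j (Ideal.Quotient.mk I _) = 0 at h2
      rw [hψ, map_sub, AlgHom.commutes, Algebra.algebraMap_self, RingHom.id_apply,
        sub_eq_zero] at h2
      exact h2.symm
    · intro p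
      have := p.isPrime
      obtain ⟨φ, hφ⟩ := exists_hom_of_prime p.asIdeal
      obtain ⟨i, hi⟩ := hall (φ.comp (Ideal.Quotient.mkₐ ℂ I)) (fun b hb => by
        change φ (Ideal.Quotient.mk I b) = 0
        rw [Ideal.Quotient.eq_zero_iff_mem.2 hb, map_zero])
      refine ⟨i, ?_⟩
      apply PrimeSpectrum.ext
      change RingHom.ker (ψ i) = p.asIdeal
      rw [← hφ]
      congr 1
      apply AlgHom.ext
      intro q
      obtain ⟨b, rfl⟩ := Ideal.Quotient.mk_surjective q
      change ψ i (Ideal.Quotient.mk I b) = φ (Ideal.Quotient.mk I b)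
      rw [hψ, ← hi]
      rfl
  have : Fintype (PrimeSpectrum (B ⧸ I)) := Fintype.ofBijective P hP
  rw [IsArtinianRing.finrank_eq_sum_primeSpectrum (B ⧸ I) ℂ]
  rw [← (Equiv.ofBijective P hP).sum_comp]
  refine Finset.sum_congr rfl fun i _ => ?_
  have hprime : (RingHom.ker (ψ i)).IsPrime := RingHom.ker_isPrime (ψ i)
  change Module.finrank ℂ (Localization.AtPrime (RingHom.ker (ψ i))) = _
  -- the localisation
  let alg : Algebra (B ⧸ I) (S i ⧸ I.map (algebraMap B (S i))) :=
    (Ideal.quotientMap (I.map (algebraMap B (S i))) (algebraMap B (S i))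
      Ideal.le_comap_map).toAlgebra
  have halg : ∀ b, algebraMap (B ⧸ I) (S i ⧸ I.map (algebraMap B (S i)))
      (Ideal.Quotient.mk I b) = Ideal.Quotient.mk _ (algebraMap B (S i) b) := fun b => rfl
  have : IsScalarTower ℂ (B ⧸ I) (S i ⧸ I.map (algebraMap B (S i))) := by
    refine IsScalarTower.of_algebraMap_eq fun c => ?_
    change Ideal.Quotient.mk _ (algebraMap ℂ (S i) c) =
      algebraMap (B ⧸ I) (S i ⧸ I.map (algebraMap B (S i))) (Ideal.Quotient.mk I (algebraMap ℂ B c))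
    rw [halg, ← IsScalarTower.algebraMap_apply]
  have hloc : IsLocalization.AtPrime (S i ⧸ I.map (algebraMap B (S i))) (RingHom.ker (ψ i)) := by
    have h1 : ∀ a : S i, a ∈ I.map (algebraMap B (S i)) →
        ∃ s : B, χ i s ≠ 0 ∧ ∃ b ∈ I, a * algebraMap B (S i) s = algebraMap B (S i) b := by
      intro a ha
      refine Submodule.span_induction (p := fun a _ => ∃ s : B, χ i s ≠ 0 ∧
        ∃ b ∈ I, a * algebraMap B (S i) s = algebraMap B (S i) b) ?_ ?_ ?_ ?_ ha
      · rintro _ ⟨b, hb, rfl⟩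
        exact ⟨1, by rw [map_one]; exact one_ne_zero, b, hb, by rw [map_one, mul_one]⟩
      · exact ⟨1, by rw [map_one]; exact one_ne_zero, 0, I.zero_mem, by rw [map_zero, zero_mul]⟩
      · rintro x y _ _ ⟨s, hs, b, hb, h⟩ ⟨s', hs', b', hb', h'⟩
        refine ⟨s * s', by rw [map_mul]; exact mul_ne_zero hs hs', b * s' + b' * s,
          I.add_mem (I.mul_mem_right _ hb) (I.mul_mem_right _ hb'), ?_⟩
        rw [map_mul, map_add, map_mul, map_mul, ← h, ← h']
        ring
      · rintro c x _ ⟨s, hs, b, hb, h⟩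
        obtain ⟨a', b', hb', h'⟩ := hsurj i c
        refine ⟨b' * s, by rw [map_mul]; exact mul_ne_zero hb' hs, a' * b, I.mul_mem_left _ hb, ?_⟩
        rw [smul_eq_mul, map_mul, map_mul, ← h, ← h']
        ring
    refine ⟨?_, ?_, ?_⟩
    · rintro ⟨q, hq⟩
      obtain ⟨b, rfl⟩ := Ideal.Quotient.mk_surjective q
      have hb : χ i b ≠ 0 := fun h => hq (by
        change ψ i (Ideal.Quotient.mk I b) = 0
        rw [hψ, h])
      change IsUnit (algebraMap (B ⧸ I) _ (Ideal.Quotient.mk I b))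
      rw [halg]
      exact (hunit i b hb).map _
    · intro z
      obtain ⟨s, rfl⟩ := Ideal.Quotient.mk_surjective z
      obtain ⟨a, b, hb, h⟩ := hsurj i s
      refine ⟨(Ideal.Quotient.mk I a, ⟨Ideal.Quotient.mk I b, fun hk => hb ?_⟩), ?_⟩
      · have : ψ i (Ideal.Quotient.mk I b) = 0 := hk
        rwa [hψ] at this
      · change Ideal.Quotient.mk _ s * algebraMap (B ⧸ I) _ (Ideal.Quotient.mk I b) =
          algebraMap (B ⧸ I) _ (Ideal.Quotient.mk I a)
        rw [halg, halg, ← map_mul, h]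
    · intro x y hxy
      obtain ⟨a, rfl⟩ := Ideal.Quotient.mk_surjective x
      obtain ⟨b, rfl⟩ := Ideal.Quotient.mk_surjective y
      rw [halg, halg, Ideal.Quotient.eq, ← map_sub] at hxy
      obtain ⟨s, hs, c, hc, h⟩ := h1 _ hxy
      rw [← map_mul, ← sub_eq_zero, ← map_sub] at h
      obtain ⟨t, ht, h'⟩ := hker i _ h
      refine ⟨⟨Ideal.Quotient.mk I (t * s), fun hk => ?_⟩, ?_⟩
      · have h2 : ψ i (Ideal.Quotient.mk I (t * s)) = 0 := hk
        rw [hψ, map_mul] at h2
        exact mul_ne_zero ht hs h2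
      · change Ideal.Quotient.mk I (t * s) * Ideal.Quotient.mk I a =
          Ideal.Quotient.mk I (t * s) * Ideal.Quotient.mk I b
        rw [← map_mul, ← map_mul, Ideal.Quotient.eq]
        have h3 : t * s * a - t * s * b = t * c := by linear_combination h'
        rw [h3]
        exact I.mul_mem_left _ hc
  exact ((IsLocalization.algEquiv (RingHom.ker (ψ i)).primeCompl
    (Localization.AtPrime (RingHom.ker (ψ i)))
    (S i ⧸ I.map (algebraMap B (S i)))).restrictScalars ℂ).toLinearEquiv.finrank_eq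

end

end H73

end LCY
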