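import Pool.Agent.Helper73.LCY.Val

/-!
Derivations and divisorial valuations, part A: the subfield `ℂ(t, π)`.
-/

open Polynomial

namespace LCY

namespace H73

variable {L : Type} [Field L] [Algebra ℂ L]

/-- Evaluation of a polynomial in two variables at `(t, π)`. -/
noncomputable def ev (t π : L) : ℂ[X][X] →+* L := eval₂RingHom (aeval t : ℂ[X] →ₐ[ℂ] L).toRingHom π

theorem ev_C (t π : L) (c : ℂ[X]) : ev t π (C c) = aeval t c := by
  simp [ev]

theorem ev_X (t π : L) : ev t π X = π := by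
  simp [ev]

/-- The elements that are integral together with their derivative. -/
def intSub (v : DVal L) (D : Derivation ℂ L L) : Subring L where
  carrier := {a | v.Int a ∧ v.Int (D a)}
  mul_mem' := fun {a b} ha hb => ⟨int_mul v ha.1 hb.1, by
    rw [D.leibniz, smul_eq_mul, smul_eq_mul]
    exact int_add v (int_mul v ha.1 hb.2) (int_mul v hb.1 ha.2)⟩
  one_mem' := ⟨int_one v, by rw [D.map_one_eq_zero]; exact int_zero v⟩
  add_mem' := fun {a b} ha hb => ⟨int_add v ha.1 hb.1, by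
    rw [map_add]; exact int_add v ha.2 hb.2⟩
  zero_mem' := ⟨int_zero v, by rw [map_zero]; exact int_zero v⟩
  neg_mem' := fun {a} ha => ⟨int_neg v ha.1, by rw [map_neg]; exact int_neg v ha.2⟩

theorem mem_intSub (v : DVal L) (D : Derivation ℂ L L) (a : L) :
    a ∈ intSub v D ↔ v.Int a ∧ v.Int (D a) := Iff.rfl

theorem intSub_inv (v : DVal L) (D : Derivation ℂ L L) {a : L} (ha : a ∈ intSub v D)
    (h0 : a ≠ 0) (h1 : v.v a = 0) : a⁻¹ ∈ intSub v D := by
  have hi : v.Int a⁻¹ := Or.inr (by rw [v_inv v h0, h1]; simp)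
  refine ⟨hi, ?_⟩
  rw [D.leibniz_inv, smul_eq_mul]
  have h2 : v.Int (-(a⁻¹ ^ 2)) := int_neg v (int_pow v hi 2)
  exact int_mul v h2 ha.2

theorem intSub_const (v : DVal L) (D : Derivation ℂ L L) (c : ℂ) :
    algebraMap ℂ L c ∈ intSub v D :=
  ⟨int_const v c, by rw [D.map_algebraMap]; exact int_zero v⟩

theorem resTr_ne (v : DVal L) {t : L} (ht : ResTr v.v t) : t ≠ 0 ∧ v.v t = 0 := by
  have := ht X X_ne_zero
  rwa [aeval_X] at this

theorem aeval_intSub (v : DVal L) (D : Derivation ℂ L L) {t : L} (ht : ResTr v.v t)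
    (hDt : v.Int (D t)) (c : ℂ[X]) : aeval t c ∈ intSub v D := by
  have htm : t ∈ intSub v D := ⟨Or.inr (resTr_ne v ht).2.ge, hDt⟩
  induction c using Polynomial.induction_on' with
  | add p q hp hq => rw [map_add]; exact (intSub v D).add_mem hp hq
  | monomial n a =>
    rw [aeval_monomial]
    exact (intSub v D).mul_mem (intSub_const v D a) ((intSub v D).pow_mem htm n)

theorem ev_intSub (v : DVal L) (D : Derivation ℂ L L) {t π : L} (ht : ResTr v.v t)
    (hπ : π ≠ 0) (hv : v.v π = 1) (hDt : v.Int (D t)) (hDπ : v.Int (D π)) (P : ℂ[X][X]) :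
    ev t π P ∈ intSub v D := by
  have hpm : π ∈ intSub v D := ⟨Or.inr (by rw [hv]; norm_num), hDπ⟩
  induction P using Polynomial.induction_on' with
  | add p q hp hq => rw [map_add]; exact (intSub v D).add_mem hp hq
  | monomial n a =>
    rw [← C_mul_X_pow_eq_monomial, map_mul, map_pow, ev_C, ev_X]
    exact (intSub v D).mul_mem (aeval_intSub v D ht hDt a) ((intSub v D).pow_mem hpm n)

theorem ev_int (v : DVal L) {t π : L} (ht : ResTr v.v t)
    (hπ : π ≠ 0) (hv : v.v π = 1) (P : ℂ[X][X]) : v.Int (ev t π P) :=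
  (ev_intSub v (0 : Derivation ℂ L L) ht hπ hv (by simpa using int_zero v)
    (by simpa using int_zero v) P).1

theorem ev_unit (v : DVal L) {t π : L} (ht : ResTr v.v t)
    (hπ : π ≠ 0) (hv : v.v π = 1) (P : ℂ[X][X]) (hP : P.coeff 0 ≠ 0) :
    ev t π P ≠ 0 ∧ v.v (ev t π P) = 0 := by
  have h1 : ev t π P = aeval t (P.coeff 0) + ev t π P.divX * π := by
    conv_lhs => rw [← divX_mul_X_add P]
    rw [map_add, map_mul, ev_X, ev_C, add_comm]
  have h2 := ht (P.coeff 0) hP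
  rw [h1]
  refine v_add_pos v h2.1 h2.2 ?_
  rw [mul_comm]
  exact pos_mul_int v (Or.inr (by rw [hv]; norm_num)) (ev_int v ht hπ hv _)

theorem ev_factor (t π : L) : ∀ (n : ℕ) (P : ℂ[X][X]), P.natDegree ≤ n → P ≠ 0 →
    ∃ (j : ℕ) (Q : ℂ[X][X]), Q.coeff 0 ≠ 0 ∧ ev t π P = π ^ j * ev t π Q := by
  intro n
  induction n with
  | zero =>
    intro P hn hP
    refine ⟨0, P, ?_, by rw [pow_zero, one_mul]⟩
    intro h
    apply hP
    rw [eq_C_of_natDegree_le_zero hn, h, C_0]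
  | succ n ih =>
    intro P hn hP
    by_cases h0 : P.coeff 0 = 0
    · have h1 : P = P.divX * X := by
        conv_lhs => rw [← divX_mul_X_add P]
        rw [h0, C_0, add_zero]
      have h2 : P.divX ≠ 0 := by
        intro h
        apply hP; rw [h1, h, zero_mul]
      have h3 : P.divX.natDegree ≤ n := by
        rw [natDegree_divX_eq_natDegree_tsub_one]; omega
      obtain ⟨j, Q, hQ, hj⟩ := ih P.divX h3 h2
      refine ⟨j + 1, Q, hQ, ?_⟩
      rw [h1, map_mul, ev_X, hj]; ring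
    · exact ⟨0, P, h0, by rw [pow_zero, one_mul]⟩

/-- Elements of `ℂ(t, π)` are quotients of polynomials. -/
theorem mem_adjoin_frac (v : DVal L) {t π : L} (ht : ResTr v.v t) (hπ : π ≠ 0) (hv : v.v π = 1)
    {x : L} (hx : x ∈ IntermediateField.adjoin ℂ ({t, π} : Set L)) :
    ∃ P Q : ℂ[X][X], ev t π Q ≠ 0 ∧ x = ev t π P / ev t π Q := by
  induction hx using IntermediateField.adjoin_induction with
  | mem x hx =>
    rcases hx with rfl | hx
    · exact ⟨C X, 1, by simp, by simp [ev_C]⟩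
    · rw [Set.mem_singleton_iff.1 hx]
      exact ⟨X, 1, by simp, by simp [ev_X]⟩
  | algebraMap c => exact ⟨C (C c), 1, by simp, by simp [ev_C]⟩
  | add x y _ _ hx hy =>
    obtain ⟨P, Q, hQ, rfl⟩ := hx
    obtain ⟨P', Q', hQ', rfl⟩ := hy
    refine ⟨P * Q' + Q * P', Q * Q', ?_, ?_⟩
    · rw [map_mul]; exact mul_ne_zero hQ hQ'
    · rw [div_add_div _ _ hQ hQ']; simp only [map_add, map_mul]
  | mul x y _ _ hx hy =>
    obtain ⟨P, Q, hQ, rfl⟩ := hx
    obtain ⟨P', Q', hQ', rfl⟩ := hy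
    refine ⟨P * P', Q * Q', ?_, ?_⟩
    · rw [map_mul]; exact mul_ne_zero hQ hQ'
    · rw [div_mul_div_comm]; simp only [map_mul]
  | inv x _ hx =>
    obtain ⟨P, Q, hQ, rfl⟩ := hx
    by_cases h : ev t π P = 0
    · refine ⟨0, 1, by simp, ?_⟩
      rw [h, zero_div, inv_zero, map_zero, zero_div]
    · exact ⟨Q, P, h, by rw [inv_div]⟩

/-- Normal form of the elements of `ℂ(t, π)`. -/
theorem mem_adjoin_normal (v : DVal L) {t π : L} (ht : ResTr v.v t) (hπ : π ≠ 0)
    (hv : v.v π = 1) {x : L} (hx : x ∈ IntermediateField.adjoin ℂ ({t, π} : Set L))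
    (hx0 : x ≠ 0) : ∃ P Q : ℂ[X][X], P.coeff 0 ≠ 0 ∧ Q.coeff 0 ≠ 0 ∧
      x = π ^ (v.v x) * (ev t π P / ev t π Q) := by
  obtain ⟨P, Q, hQ, hx'⟩ := mem_adjoin_frac v ht hπ hv hx
  have hP : ev t π P ≠ 0 := by
    intro h; apply hx0; rw [hx', h, zero_div]
  have hP0 : P ≠ 0 := by intro h; apply hP; rw [h, map_zero]
  have hQ0 : Q ≠ 0 := by intro h; apply hQ; rw [h, map_zero]
  obtain ⟨i, P', hP', hi⟩ := ev_factor t π _ P le_rfl hP0
  obtain ⟨j, Q', hQ', hj⟩ := ev_factor t π _ Q le_rfl hQ0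
  obtain ⟨hu1, hu2⟩ := ev_unit v ht hπ hv P' hP'
  obtain ⟨hw1, hw2⟩ := ev_unit v ht hπ hv Q' hQ'
  have hval : v.v x = (i : ℤ) - j := by
    rw [hx', hi, hj, v_div v (mul_ne_zero (pow_ne_zero _ hπ) hu1)
      (mul_ne_zero (pow_ne_zero _ hπ) hw1), v.map_mul _ _ (pow_ne_zero _ hπ) hu1,
      v.map_mul _ _ (pow_ne_zero _ hπ) hw1, v_pow v hπ, v_pow v hπ, hv, hu2, hw2]
    ring
  refine ⟨P', Q', hP', hQ', ?_⟩
  rw [hval, hx', hi, hj, zpow_sub₀ hπ, zpow_natCast, zpow_natCast]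
  field_simp

/-- A derivation that is integral at `t` and `π` preserves the valuation ring of `ℂ(t, π)`. -/
theorem der_int_base (v : DVal L) (D : Derivation ℂ L L) {t π : L} (ht : ResTr v.v t)
    (hπ : π ≠ 0) (hv : v.v π = 1) (hDt : v.Int (D t)) (hDπ : v.Int (D π))
    {x : L} (hx : x ∈ IntermediateField.adjoin ℂ ({t, π} : Set L)) (hi : v.Int x) :
    v.Int (D x) := by
  by_cases hx0 : x = 0
  · rw [hx0, map_zero]; exact int_zero v
  obtain ⟨P, Q, hP, hQ, hx'⟩ := mem_adjoin_normal v ht hπ hv hx hx0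
  have hv0 : 0 ≤ v.v x := hi.resolve_left hx0
  obtain ⟨n, hn⟩ := Int.eq_ofNat_of_zero_le hv0
  rw [hn, zpow_natCast, div_eq_mul_inv] at hx'
  have hpm : π ∈ intSub v D := ⟨Or.inr (by rw [hv]; norm_num), hDπ⟩
  have hmem : x ∈ intSub v D := by
    rw [hx']
    refine (intSub v D).mul_mem ((intSub v D).pow_mem hpm n) ((intSub v D).mul_mem
      (ev_intSub v D ht hπ hv hDt hDπ P) ?_)
    exact intSub_inv v D (ev_intSub v D ht hπ hv hDt hDπ Q) (ev_unit v ht hπ hv Q hQ).1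
      (ev_unit v ht hπ hv Q hQ).2
  exact hmem.2

end H73

end LCY
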