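import Pool.Agent.Helper73.LCY.DerA

/-!
Derivations and divisorial valuations, part B: the valuation ring of `ℂ(t, π)` and boundedness.
-/

open Polynomial

namespace LCY

namespace H73

variable {L : Type} [Field L] [Algebra ℂ L]

/-- The restriction of the valuation ring to a subfield. -/
noncomputable abbrev bring (v : DVal L) (K : IntermediateField ℂ L) : ValuationSubring K :=
  (vring v).comap (algebraMap K L)

theorem mem_bring (v : DVal L) (K : IntermediateField ℂ L) (x : K) :
    x ∈ bring v K ↔ v.Int (x : L) := Iff.rfl

/-- The restricted valuation ring is a principal ideal ring. -/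
theorem bring_pir (v : DVal L) (K : IntermediateField ℂ L) :
    IsPrincipalIdealRing (bring v K) := by
  constructor
  intro I
  by_cases hI : I = ⊥
  · rw [hI]; exact ⟨⟨0, by simp⟩⟩
  obtain ⟨a, haI, ha0⟩ := Submodule.exists_mem_ne_zero_of_ne_bot hI
  let S : Set ℕ := {n | ∃ b ∈ I, b ≠ 0 ∧ ((n : ℤ) = v.v ((b : K) : L))}
  have hval : ∀ b : bring v K, b ≠ 0 → 0 ≤ v.v ((b : K) : L) := by
    intro b hb
    have h1 : ((b : K) : L) ≠ 0 := by
      intro h
      apply hb
      apply Subtype.ext
      apply Subtype.ext
      exact h
    exact (b.2 : v.Int ((b : K) : L)).resolve_left h1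
  have hS : S.Nonempty := by
    obtain ⟨n, hn⟩ := Int.eq_ofNat_of_zero_le (hval a ha0)
    exact ⟨n, a, haI, ha0, hn.symm⟩
  obtain ⟨b, hbI, hb0, hb⟩ := Nat.sInf_mem hS
  refine ⟨⟨b, le_antisymm ?_ ?_⟩⟩
  · intro c hc
    rw [Submodule.mem_span_singleton]
    by_cases hc0 : c = 0
    · exact ⟨0, by rw [hc0, zero_smul]⟩
    have hcL : ((c : K) : L) ≠ 0 := by
      intro h; apply hc0; apply Subtype.ext; apply Subtype.ext; exact h
    have hbL : ((b : K) : L) ≠ 0 := by
      intro h; apply hb0; apply Subtype.ext; apply Subtype.ext; exact h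
    have hle : v.v ((b : K) : L) ≤ v.v ((c : K) : L) := by
      obtain ⟨n, hn⟩ := Int.eq_ofNat_of_zero_le (hval c hc0)
      have hmem : n ∈ S := ⟨c, hc, hc0, hn.symm⟩
      have := Nat.sInf_le hmem
      rw [← hb, hn]
      exact_mod_cast this
    have hq : v.Int (((c : K) / (b : K) : K) : L) := by
      right
      have : (((c : K) / (b : K) : K) : L) = ((c : K) : L) / ((b : K) : L) := rfl
      rw [this, v_div v hcL hbL]; linarith
    refine ⟨⟨(c : K) / (b : K), hq⟩, ?_⟩
    apply Subtype.ext
    have hbK : (b : K) ≠ 0 := by
      intro h; apply hb0; apply Subtype.ext; exact h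
    change (c : K) / (b : K) * (b : K) = (c : K)
    exact div_mul_cancel₀ _ hbK
  · rw [Submodule.span_singleton_le_iff_mem]; exact hbI

/-- The algebra structure of `L` over the restricted valuation ring. -/
@[reducible] noncomputable def bringAlg (v : DVal L) (K : IntermediateField ℂ L) :
    Algebra (bring v K) L :=
  ((algebraMap K L).comp (algebraMap (bring v K) K)).toAlgebra

attribute [local instance] bringAlg

theorem bringTower (v : DVal L) (K : IntermediateField ℂ L) :
    IsScalarTower (bring v K) K L := IsScalarTower.of_algebraMap_eq' rfl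

attribute [local instance] bringTower

theorem bring_algebraMap (v : DVal L) (K : IntermediateField ℂ L) (x : bring v K) :
    algebraMap (bring v K) L x = ((x : K) : L) := rfl

/-- Integral elements are integral at `v`. -/
theorem int_of_isIntegral (v : DVal L) (K : IntermediateField ℂ L) {b : L}
    (hb : IsIntegral (bring v K) b) : v.Int b := by
  obtain ⟨p, hp, hpb⟩ := hb
  have hf : ∀ x : bring v K, algebraMap (bring v K) L x ∈ vring v := fun x => x.2
  let f : bring v K →+* vring v := (algebraMap (bring v K) L).codRestrict (vring v) hf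
  have h1 : IsIntegral (vring v) b := by
    refine ⟨p.map f, hp.map f, ?_⟩
    rw [eval₂_map]
    have : (algebraMap (vring v) L).comp f = algebraMap (bring v K) L := by
      ext x; rfl
    rw [this]; exact hpb
  obtain ⟨y, hy⟩ := (IsIntegrallyClosed.isIntegral_iff (R := vring v) (K := L)).1 h1
  rw [← hy]
  exact y.2

/-- Boundedness on integral elements. -/
theorem bounded_integral (v : DVal L) (K : IntermediateField ℂ L) [FiniteDimensional K L]
    (D : Derivation ℂ L L) {π : L} (hπ : π ≠ 0) (hv : v.v π = 1)
    (hK : ∀ x ∈ K, v.Int x → v.Int (D x)) :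
    ∃ n : ℕ, ∀ b : L, IsIntegral (bring v K) b → v.Int (π ^ n * D b) := by
  have := bring_pir v K
  have : IsNoetherianRing (bring v K) := inferInstance
  have : Algebra.IsSeparable K L := inferInstance
  have hfin : Module.Finite (bring v K) (integralClosure (bring v K) L) :=
    IsIntegralClosure.finite (bring v K) K L (integralClosure (bring v K) L)
  obtain ⟨S, hS⟩ := hfin.fg_top
  -- exponents of the generators
  have hpiv : v.Int π := Or.inr (by rw [hv]; norm_num)
  have hexp : ∀ x : L, ∃ n : ℕ, v.Int (π ^ n * D x) := by
    intro x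
    by_cases h0 : D x = 0
    · exact ⟨0, by rw [h0, mul_zero]; exact int_zero v⟩
    refine ⟨(-(v.v (D x))).toNat, Or.inr ?_⟩
    rw [v.map_mul _ _ (pow_ne_zero _ hπ) h0, v_pow v hπ, hv]
    have := Int.self_le_toNat (-(v.v (D x)))
    linarith
  have hmono : ∀ (x : L) (n m : ℕ), n ≤ m → v.Int (π ^ n * x) → v.Int (π ^ m * x) := by
    intro x n m hnm h
    have : π ^ m * x = π ^ (m - n) * (π ^ n * x) := by
      rw [← mul_assoc, ← pow_add]; congr 2; omega
    rw [this]; exact int_mul v (int_pow v hpiv _) h
  choose e he using hexp
  let n : ℕ := S.sup (fun s => e (s : L))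
  refine ⟨n, ?_⟩
  have key : ∀ y : integralClosure (bring v K) L, v.Int (π ^ n * D (y : L)) := by
    intro y
    have hy : y ∈ Submodule.span (bring v K) (S : Set (integralClosure (bring v K) L)) := by
      rw [hS]; exact Submodule.mem_top
    induction hy using Submodule.span_induction with
    | mem x hx =>
      have hle : e (x : L) ≤ n :=
        Finset.le_sup (f := fun s : integralClosure (bring v K) L => e (s : L))
          (Finset.mem_coe.1 hx)
      exact hmono _ _ _ hle (he _)
    | zero => simpa using int_zero v
    | add x y _ _ hx hy =>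
      have : π ^ n * D ((x + y : integralClosure (bring v K) L) : L)
          = π ^ n * D (x : L) + π ^ n * D (y : L) := by
        push_cast; rw [map_add, mul_add]
      rw [this]; exact int_add v hx hy
    | smul a x _ hx =>
      have h1 : ((a • x : integralClosure (bring v K) L) : L) = ((a : K) : L) * (x : L) := by
        rw [Algebra.smul_def]; rfl
      rw [h1, D.leibniz, smul_eq_mul, smul_eq_mul, mul_add]
      have hxi : v.Int (x : L) := int_of_isIntegral v K x.2
      have hai : v.Int ((a : K) : L) := a.2
      refine int_add v ?_ ?_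
      · have : π ^ n * (((a : K) : L) * D (x : L)) = ((a : K) : L) * (π ^ n * D (x : L)) := by ring
        rw [this]; exact int_mul v hai hx
      · exact int_mul v (int_pow v hpiv n) (int_mul v hxi (hK _ (a : K).2 hai))
  intro b hb
  exact key ⟨b, hb⟩

end H73

end LCY
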