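import Pool.Agent.Helper73.LCY.DerB

/-!
Derivations and divisorial valuations, part C: elements of the valuation ring as quotients of
integral elements; a derivation preserves the valuation ring.
-/

open Polynomial

namespace LCY

namespace H73

variable {L : Type} [Field L] [Algebra ℂ L]

attribute [local instance] bringAlg bringTower

/-- An algebraic element has an equation with integral coefficients, one of them being `1`. -/
theorem exists_primitive (v : DVal L) (K : IntermediateField ℂ L) {a : L}
    (ha : IsAlgebraic K a) : ∃ G : K[X], (∀ i, v.Int ((G.coeff i : K) : L)) ∧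
      (∃ i, G.coeff i = 1) ∧ aeval a G = 0 := by
  obtain ⟨F, hF, hFa⟩ := ha
  have hne : F.support.Nonempty := Polynomial.support_nonempty.2 hF
  obtain ⟨i0, hi0, hmin⟩ := Finset.exists_min_image F.support
    (fun i => v.v ((F.coeff i : K) : L)) hne
  have hc0 : F.coeff i0 ≠ 0 := mem_support_iff.1 hi0
  have hcL : ((F.coeff i0 : K) : L) ≠ 0 := by
    intro h; apply hc0; apply Subtype.ext; exact h
  refine ⟨C (F.coeff i0)⁻¹ * F, ?_, ⟨i0, ?_⟩, ?_⟩
  · intro i
    rw [coeff_C_mul]
    by_cases hi : F.coeff i = 0
    · left; rw [hi, mul_zero]; rfl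
    right
    have hiL : ((F.coeff i : K) : L) ≠ 0 := by
      intro h; apply hi; apply Subtype.ext; exact h
    have h1 : (((F.coeff i0)⁻¹ * F.coeff i : K) : L)
        = ((F.coeff i0 : K) : L)⁻¹ * ((F.coeff i : K) : L) := rfl
    rw [h1, v.map_mul _ _ (inv_ne_zero hcL) hiL, v_inv v hcL]
    have := hmin i (mem_support_iff.2 hi)
    linarith
  · rw [coeff_C_mul, inv_mul_cancel₀ hc0]
  · rw [map_mul, hFa, mul_zero]

/-- Elements of the valuation ring are quotients of integral elements by integral units. -/
theorem exists_quot (v : DVal L) (K : IntermediateField ℂ L) {a : L}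
    (ha : IsAlgebraic K a) (hi : v.Int a) : ∃ b s : L, IsIntegral (bring v K) b ∧
      IsIntegral (bring v K) s ∧ s ≠ 0 ∧ v.v s = 0 ∧ a * s = b := by
  classical
  obtain ⟨G, hG, ⟨i0, hi0⟩, hGa⟩ := exists_primitive v K ha
  set n := G.natDegree with hn
  let g : ℕ → L := fun i => ((G.coeff i : K) : L)
  have hg : ∀ i, v.Int (g i) := hG
  have hsum : ∑ l ∈ Finset.range (n + 1), g l * a ^ l = 0 := by
    rw [← hGa, aeval_eq_sum_range]
    refine Finset.sum_congr rfl ?_
    intro l _
    rw [Algebra.smul_def]; rfl
  let b : ℕ → L := fun i => ∑ l ∈ Finset.range (n + 1 - i), g (i + l) * a ^ l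
  have hb0 : b 0 = 0 := by
    change ∑ l ∈ Finset.range (n + 1 - 0), g (0 + l) * a ^ l = 0
    simp only [Nat.sub_zero, zero_add]
    exact hsum
  have hbn : b (n + 1) = 0 := by
    change ∑ l ∈ Finset.range (n + 1 - (n + 1)), g (n + 1 + l) * a ^ l = 0
    simp
  have hrec : ∀ i, i ≤ n → b i = b (i + 1) * a + g i := by
    intro i hin
    change ∑ l ∈ Finset.range (n + 1 - i), g (i + l) * a ^ l
      = (∑ l ∈ Finset.range (n + 1 - (i + 1)), g (i + 1 + l) * a ^ l) * a + g i
    have h1 : n + 1 - i = (n + 1 - (i + 1)) + 1 := by omega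
    rw [h1, Finset.sum_range_succ', Finset.sum_mul]
    congr 1
    · refine Finset.sum_congr rfl ?_
      intro l _
      have : i + (l + 1) = i + 1 + l := by ring
      rw [this]; ring
    · simp
  -- the module
  let N : Submodule (bring v K) L := Submodule.span (bring v K)
    (Set.range (fun j : Fin (n + 1) => a ^ (j : ℕ)))
  have hNfg : N.FG := by
    refine ⟨Finset.univ.image (fun j : Fin (n + 1) => a ^ (j : ℕ)), ?_⟩
    rw [Finset.coe_image, Finset.coe_univ, Set.image_univ]
  have hpow : ∀ j, j ≤ n → a ^ j ∈ N := by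
    intro j hj
    exact Submodule.subset_span ⟨⟨j, by omega⟩, rfl⟩
  have hN1 : N ≠ ⊥ := by
    intro h
    have : (a ^ 0 : L) ∈ N := hpow 0 (by omega)
    rw [h, Submodule.mem_bot, pow_zero] at this
    exact one_ne_zero this
  have hgsmul : ∀ i, ∀ x ∈ N, g i * x ∈ N := by
    intro i x hx
    have := N.smul_mem (⟨G.coeff i, hG i⟩ : bring v K) hx
    rw [Algebra.smul_def] at this
    exact this
  have hbint : ∀ i, IsIntegral (bring v K) (b i) := by
    intro i
    by_cases hin : i ≤ n
    swap
    · have : b i = 0 := by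
        change ∑ l ∈ Finset.range (n + 1 - i), g (i + l) * a ^ l = 0
        have : n + 1 - i = 0 := by omega
        rw [this]; simp
      rw [this]; exact isIntegral_zero
    refine isIntegral_of_smul_mem_submodule N hN1 hNfg (b i) ?_
    intro x hx
    have hsplit : b i * a ^ i = - ∑ l ∈ Finset.range i, g l * a ^ l := by
      have h1 : n + 1 = i + (n + 1 - i) := by omega
      rw [h1, Finset.sum_range_add] at hsum
      have h2 : b i * a ^ i = ∑ l ∈ Finset.range (n + 1 - i), g (i + l) * a ^ (i + l) := by
        change (∑ l ∈ Finset.range (n + 1 - i), g (i + l) * a ^ l) * a ^ i = _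
        rw [Finset.sum_mul]
        refine Finset.sum_congr rfl ?_
        intro l _
        rw [mul_assoc, ← pow_add, add_comm l i]
      rw [h2]; linear_combination hsum
    induction hx using Submodule.span_induction with
    | mem x hx =>
      obtain ⟨j, rfl⟩ := hx
      change b i * a ^ (j : ℕ) ∈ N
      by_cases hji : (j : ℕ) < i
      · change (∑ l ∈ Finset.range (n + 1 - i), g (i + l) * a ^ l) * a ^ (j : ℕ) ∈ N
        rw [Finset.sum_mul]
        refine N.sum_mem ?_
        intro l hl
        rw [Finset.mem_range] at hl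
        rw [mul_assoc, ← pow_add]
        exact hgsmul _ _ (hpow _ (by omega))
      · have h3 : b i * a ^ (j : ℕ) = - ∑ l ∈ Finset.range i, g l * a ^ (l + (j - i)) := by
          have : (j : ℕ) = i + (j - i) := by omega
          have h4 : a ^ (j : ℕ) = a ^ i * a ^ ((j : ℕ) - i) := by
            rw [← pow_add]; congr 1
          rw [h4, ← mul_assoc, hsplit, neg_mul, Finset.sum_mul]
          congr 1
          refine Finset.sum_congr rfl ?_
          intro l _
          rw [mul_assoc, ← pow_add]
        rw [h3]
        refine N.neg_mem (N.sum_mem ?_)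
        intro l hl
        rw [Finset.mem_range] at hl
        have := j.2
        exact hgsmul _ _ (hpow _ (by omega))
    | zero => simp
    | add x y _ _ hx hy => rw [smul_add]; exact N.add_mem hx hy
    | smul c x _ hx =>
      rw [smul_comm]; exact N.smul_mem c hx
  have hgint : ∀ i, IsIntegral (bring v K) (g i) := by
    intro i
    exact isIntegral_algebraMap (x := (⟨G.coeff i, hG i⟩ : bring v K))
  -- a unit among the `b i`
  obtain ⟨i, hi1, hib, hiv⟩ : ∃ i, 1 ≤ i ∧ b i ≠ 0 ∧ v.v (b i) = 0 := by
    by_contra hcon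
    push Not at hcon
    have hpos : ∀ i, 1 ≤ i → v.Pos (b i) := by
      intro i hi1
      by_cases h0 : b i = 0
      · exact Or.inl h0
      right
      exact lt_of_le_of_ne ((int_of_isIntegral v K (hbint i)).resolve_left h0)
        (Ne.symm (hcon i hi1 h0))
    have hgpos : ∀ i, i ≤ n → v.Pos (g i) := by
      intro i hin
      have h1 : g i = b i + (-(b (i + 1) * a)) := by rw [hrec i hin]; ring
      rw [h1]
      refine pos_add v ?_ (pos_neg v (pos_mul_int v (hpos _ (by omega)) hi))
      rcases Nat.eq_zero_or_pos i with h | h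
      · rw [h, hb0]; exact Or.inl rfl
      · exact hpos i h
    have hi0n : i0 ≤ n := by
      apply le_natDegree_of_ne_zero
      rw [hi0]; exact one_ne_zero
    have := hgpos i0 hi0n
    have h1 : g i0 = 1 := by change ((G.coeff i0 : K) : L) = 1; rw [hi0]; rfl
    rw [h1] at this
    have h2 := this.resolve_left one_ne_zero
    rw [v_one] at h2
    omega
  have hin : i ≤ n := by
    by_contra hc
    apply hib
    change ∑ l ∈ Finset.range (n + 1 - i), g (i + l) * a ^ l = 0
    have : n + 1 - i = 0 := by omega
    rw [this]; simp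
  refine ⟨a * b i, b i, ?_, hbint i, hib, hiv, rfl⟩
  have h1 : a * b i = b (i - 1) - g (i - 1) := by
    have := hrec (i - 1) (by omega)
    rw [show i - 1 + 1 = i by omega] at this
    rw [this]; ring
  rw [h1]
  exact (hbint _).sub (hgint _)

/-- Boundedness on the valuation ring. -/
theorem bounded (v : DVal L) (K : IntermediateField ℂ L) [FiniteDimensional K L]
    (D : Derivation ℂ L L) {π : L} (hπ : π ≠ 0) (hv : v.v π = 1)
    (hK : ∀ x ∈ K, v.Int x → v.Int (D x)) :
    ∃ n : ℕ, ∀ a : L, v.Int a → v.Int (π ^ n * D a) := by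
  obtain ⟨n, hn⟩ := bounded_integral v K D hπ hv hK
  refine ⟨n, ?_⟩
  intro a ha
  have halg : IsAlgebraic K a := Algebra.IsAlgebraic.isAlgebraic a
  obtain ⟨b, s, hb, hs, hs0, hvs, hab⟩ := exists_quot v K halg ha
  have h1 : π ^ n * D a = s⁻¹ * (π ^ n * D b + -(a * (π ^ n * D s))) := by
    have h2 : D b = a * D s + s * D a := by
      rw [← hab, D.leibniz, smul_eq_mul, smul_eq_mul]
    rw [h2]; field_simp; ring
  rw [h1]
  refine int_mul v (Or.inr (by rw [v_inv v hs0, hvs]; simp)) ?_
  exact int_add v (hn b hb) (int_neg v (int_mul v ha (hn s hs)))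

theorem int_sum (v : DVal L) {ι : Type} (s : Finset ι) (f : ι → L) (h : ∀ i ∈ s, v.Int (f i)) :
    v.Int (∑ i ∈ s, f i) := by
  classical
  induction s using Finset.induction_on with
  | empty => simpa using int_zero v
  | insert a s ha ih =>
    rw [Finset.sum_insert ha]
    exact int_add v (h a (Finset.mem_insert_self a s))
      (ih (fun i hi => h i (Finset.mem_insert_of_mem hi)))

theorem pos_sum (v : DVal L) {ι : Type} (s : Finset ι) (f : ι → L) (h : ∀ i ∈ s, v.Pos (f i)) :
    v.Pos (∑ i ∈ s, f i) := by
  classical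
  induction s using Finset.induction_on with
  | empty => left; simp
  | insert a s ha ih =>
    rw [Finset.sum_insert ha]
    exact pos_add v (h a (Finset.mem_insert_self a s))
      (ih (fun i hi => h i (Finset.mem_insert_of_mem hi)))

/-- A polynomial over `K` with integral coefficients, not all of positive value, taking a value
of positive valuation at `a`, with derivative a unit at `a`. -/
theorem exists_simple (v : DVal L) (K : IntermediateField ℂ L) {a : L}
    (ha : IsAlgebraic K a) (hi : v.Int a) : ∃ F : K[X], (∀ i, v.Int ((F.coeff i : K) : L)) ∧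
      v.Pos (aeval a F) ∧ aeval a (derivative F) ≠ 0 ∧ v.v (aeval a (derivative F)) = 0 := by
  let Pr : K[X] → Prop := fun F => (∀ i, v.Int ((F.coeff i : K) : L)) ∧
    (∃ i, ¬ v.Pos ((F.coeff i : K) : L)) ∧ v.Pos (aeval a F)
  have hex : ∃ n : ℕ, ∃ F : K[X], F.natDegree = n ∧ Pr F := by
    obtain ⟨G, hG, ⟨i0, hi0⟩, hGa⟩ := exists_primitive v K ha
    refine ⟨_, G, rfl, hG, ⟨i0, ?_⟩, Or.inl hGa⟩
    rw [hi0]
    intro h
    have h2 := h.resolve_left (by
      change ((1 : K) : L) ≠ 0
      exact one_ne_zero)
    have h3 : ((1 : K) : L) = 1 := rfl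
    rw [h3, v_one] at h2
    omega
  classical
  obtain ⟨F, hFn, hFi, ⟨i1, hi1⟩, hFp⟩ := Nat.find_spec hex
  have hmin : ∀ G : K[X], G.natDegree < F.natDegree → ¬ Pr G := by
    intro G hG hPr
    exact Nat.find_min hex (by rw [← hFn]; exact hG) ⟨G, rfl, hPr⟩
  have hval : ∀ G : K[X], (∀ i, v.Int ((G.coeff i : K) : L)) → v.Int (aeval a G) := by
    intro G hG
    rw [aeval_eq_sum_range]
    refine int_sum v _ _ ?_
    intro i _
    rw [Algebra.smul_def]
    exact int_mul v (hG i) (int_pow v hi i)
  have hdint : ∀ i, v.Int (((derivative F).coeff i : K) : L) := by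
    intro i
    rw [coeff_derivative]
    have : ((F.coeff (i + 1) * ((i : K) + 1) : K) : L)
        = ((F.coeff (i + 1) : K) : L) * algebraMap ℂ L ((i : ℂ) + 1) := by
      push_cast; simp
    rw [this]
    exact int_mul v (hFi _) (int_const v _)
  -- split off the constant term
  have hsplit : aeval a F = ((F.coeff 0 : K) : L) + aeval a F.divX * a := by
    conv_lhs => rw [← divX_mul_X_add F]
    rw [map_add, map_mul, aeval_X, aeval_C, add_comm]; rfl
  by_cases hunit : v.Pos (aeval a (derivative F))
  · exfalso
    -- all coefficients of the derivative have positive value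
    have hdpos : ∀ i, v.Pos (((derivative F).coeff i : K) : L) := by
      intro i
      by_contra hc
      by_cases hd : F.natDegree = 0
      · rw [derivative_of_natDegree_zero hd, coeff_zero] at hc
        exact hc (Or.inl rfl)
      · exact hmin _ (natDegree_derivative_lt hd) ⟨hdint, ⟨i, hc⟩, hunit⟩
    have hcpos : ∀ i, v.Pos ((F.coeff (i + 1) : K) : L) := by
      intro i
      have h1 := hdpos i
      rw [coeff_derivative] at h1
      have h2 : ((F.coeff (i + 1) * ((i : K) + 1) : K) : L)
          = ((F.coeff (i + 1) : K) : L) * algebraMap ℂ L ((i : ℂ) + 1) := by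
        push_cast; simp
      rw [h2] at h1
      have hne : ((i : ℂ) + 1) ≠ 0 := by exact_mod_cast Nat.succ_ne_zero i
      have h3 : ((F.coeff (i + 1) : K) : L)
          = ((F.coeff (i + 1) : K) : L) * algebraMap ℂ L ((i : ℂ) + 1)
            * algebraMap ℂ L ((i : ℂ) + 1)⁻¹ := by
        rw [mul_assoc, ← map_mul, mul_inv_cancel₀ hne, map_one, mul_one]
      rw [h3]
      exact pos_mul_int v h1 (int_const v _)
    have hX : v.Pos (aeval a F.divX) := by
      rw [aeval_eq_sum_range]
      refine pos_sum v _ _ ?_
      intro i _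
      rw [Algebra.smul_def, coeff_divX]
      exact pos_mul_int v (hcpos i) (int_pow v hi i)
    have h0 : v.Pos ((F.coeff 0 : K) : L) := by
      have : ((F.coeff 0 : K) : L) = aeval a F + -(aeval a F.divX * a) := by
        rw [hsplit]; ring
      rw [this]
      exact pos_add v hFp (pos_neg v (pos_mul_int v hX hi))
    rcases i1 with _ | i
    · exact hi1 h0
    · exact hi1 (hcpos i)
  · have hne : aeval a (derivative F) ≠ 0 := fun h => hunit (Or.inl h)
    refine ⟨F, hFi, hFp, hne, ?_⟩
    have h1 := (hval _ hdint).resolve_left hne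
    by_contra hc
    exact hunit (Or.inr (lt_of_le_of_ne h1 (Ne.symm hc)))

/-- The main lemma: a derivation that preserves the valuation ring of `K` preserves the
valuation ring of `L`. -/
theorem der_int (v : DVal L) (K : IntermediateField ℂ L) [FiniteDimensional K L]
    (D : Derivation ℂ L L) {π : L} (hπ : π ≠ 0) (hv : v.v π = 1) (hπK : π ∈ K)
    (hK : ∀ x ∈ K, v.Int x → v.Int (D x)) : ∀ a : L, v.Int a → v.Int (D a) := by
  classical
  have hex := bounded v K D hπ hv hK
  have hn := Nat.find_spec hex
  have hpiv : v.Int π := Or.inr (by rw [hv]; norm_num)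
  rcases hm : Nat.find hex with _ | m
  · rw [hm] at hn
    intro a ha
    have := hn a ha
    rwa [pow_zero, one_mul] at this
  · exfalso
    rw [hm] at hn
    refine Nat.find_min hex (m := m) (by omega) ?_
    intro a ha
    have halg : IsAlgebraic K a := Algebra.IsAlgebraic.isAlgebraic a
    obtain ⟨F, hFi, hFp, hne, hu⟩ := exists_simple v K halg ha
    -- derivative of the value
    have hder : D (aeval a F) = (∑ i ∈ Finset.range (F.natDegree + 1),
        D ((F.coeff i : K) : L) * a ^ i) + aeval a (derivative F) * D a := by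
      have h1 : aeval a F = ∑ i ∈ Finset.range (F.natDegree + 1),
          ((F.coeff i : K) : L) * a ^ i := by
        rw [aeval_eq_sum_range]
        refine Finset.sum_congr rfl ?_
        intro i _
        rw [Algebra.smul_def]; rfl
      have h2 : aeval a (derivative F) = ∑ i ∈ Finset.range (F.natDegree + 1),
          ((F.coeff i : K) : L) * ((i : L) * a ^ (i - 1)) := by
        conv_lhs => rw [F.as_sum_range' (F.natDegree + 1) (Nat.lt_succ_self _)]
        rw [derivative_sum, map_sum]
        refine Finset.sum_congr rfl ?_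
        intro i _
        rw [derivative_monomial, aeval_monomial]
        have : algebraMap K L (F.coeff i * (i : K)) = ((F.coeff i : K) : L) * (i : L) := by
          rw [map_mul, _root_.map_natCast]; rfl
        rw [this, mul_assoc]
      rw [h1, h2, map_sum, Finset.sum_mul, ← Finset.sum_add_distrib]
      refine Finset.sum_congr rfl ?_
      intro i _
      rw [D.leibniz, D.leibniz_pow, smul_eq_mul, smul_eq_mul, nsmul_eq_mul, smul_eq_mul]
      ring
    have hc : v.Int (aeval a F / π) := (pos_iff_div v hπ hv _).1 hFp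
    have hFeq : aeval a F = π * (aeval a F / π) := by field_simp
    have hD1 : v.Int (π ^ m * D (aeval a F)) := by
      rw [hFeq, D.leibniz, smul_eq_mul, smul_eq_mul]
      have : π ^ m * (π * D (aeval a F / π) + aeval a F / π * D π)
          = π ^ (m + 1) * D (aeval a F / π) + π ^ m * (aeval a F / π * D π) := by ring
      rw [this]
      exact int_add v (hn _ hc) (int_mul v (int_pow v hpiv m) (int_mul v hc (hK π hπK hpiv)))
    have hD2 : v.Int (π ^ m * ∑ i ∈ Finset.range (F.natDegree + 1),
        D ((F.coeff i : K) : L) * a ^ i) := by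
      refine int_mul v (int_pow v hpiv m) (int_sum v _ _ ?_)
      intro i _
      exact int_mul v (hK _ (F.coeff i).2 (hFi i)) (int_pow v ha i)
    have h3 : π ^ m * D a = (aeval a (derivative F))⁻¹ * (π ^ m * D (aeval a F)
        + -(π ^ m * ∑ i ∈ Finset.range (F.natDegree + 1), D ((F.coeff i : K) : L) * a ^ i)) := by
      rw [hder]; field_simp; ring
    rw [h3]
    exact int_mul v (Or.inr (by rw [v_inv v hne, hu]; simp)) (int_add v hD1 (int_neg v hD2))

end H73

end LCY
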