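import Pool.Agent.Helper73.LCY.DerC
import Pool.Agent.Helper27.LCY.BR2

/-!
Derivations and divisorial valuations, part D: the basic inequality for brackets (BR8, BR9).
-/

open Polynomial

namespace LCY

namespace H73

variable {L : Type} [Field L] [Algebra ℂ L]

theorem ev_ne_zero (v : DVal L) {t π : L} (ht : ResTr v.v t) (hπ : π ≠ 0) (hv : v.v π = 1)
    {P : ℂ[X][X]} (hP : P ≠ 0) : ev t π P ≠ 0 := by
  obtain ⟨j, Q, hQ, hj⟩ := ev_factor t π _ P le_rfl hP
  rw [hj]
  exact mul_ne_zero (pow_ne_zero _ hπ) (ev_unit v ht hπ hv Q hQ).1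

/-- A residually transcendental element and a uniformizer are algebraically independent. -/
theorem indep_res (v : DVal L) {t π : L} (ht : ResTr v.v t) (hπ : π ≠ 0) (hv : v.v π = 1) :
    AlgebraicIndependent ℂ ![t, π] := by
  rw [algebraicIndependent_iff]
  intro p hp
  let ψ : MvPolynomial (Fin 2) ℂ →ₐ[ℂ] ℂ[X][X] := MvPolynomial.aeval ![C X, X]
  let χ : ℂ[X][X] →+* MvPolynomial (Fin 2) ℂ :=
    eval₂RingHom (aeval (MvPolynomial.X 0) : ℂ[X] →ₐ[ℂ] MvPolynomial (Fin 2) ℂ).toRingHom
      (MvPolynomial.X 1)
  have h1 : ∀ q, χ (ψ q) = q := by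
    intro q
    induction q using MvPolynomial.induction_on with
    | C a =>
      have : ψ (MvPolynomial.C a) = C (C a) := by
        have := ψ.commutes a
        simpa using this
      rw [this]; simp [χ]
    | add p q hp hq => rw [map_add, map_add, hp, hq]
    | mul_X p i hp =>
      rw [map_mul, map_mul, hp]
      congr 1
      fin_cases i <;> simp [ψ, χ]
  have h2 : ∀ q, ev t π (ψ q) = MvPolynomial.aeval ![t, π] q := by
    intro q
    induction q using MvPolynomial.induction_on with
    | C a =>
      have : ψ (MvPolynomial.C a) = C (C a) := by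
        have := ψ.commutes a
        simpa using this
      rw [this, ev_C]; simp
    | add p q hp hq => rw [map_add, map_add, map_add, hp, hq]
    | mul_X p i hp =>
      rw [map_mul, map_mul, map_mul, hp]
      congr 1
      fin_cases i <;> simp [ψ, ev_C, ev_X]
  by_contra hne
  have h3 : ψ p ≠ 0 := by
    intro h
    apply hne
    rw [← h1 p, h, map_zero]
  exact ev_ne_zero v ht hπ hv h3 (by rw [h2, hp])

/-- The field is finite over `ℂ(t, π)`. -/
theorem finite_adjoin (htr : Algebra.trdeg ℂ L = 2)
    (hfg : ∃ s : Finset L, IntermediateField.adjoin ℂ (s : Set L) = ⊤) {t π : L}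
    (h : AlgebraicIndependent ℂ ![t, π]) :
    FiniteDimensional (IntermediateField.adjoin ℂ ({t, π} : Set L)) L := by
  have hrange : Set.range ![t, π] = {t, π} := by
    simp [Set.pair_comm]
  have hb : IsTranscendenceBasis ℂ ![t, π] := by
    refine h.isTranscendenceBasis_of_lift_trdeg_le_of_finite ?_
    rw [htr]; simp
  have halg : Algebra.IsAlgebraic (IntermediateField.adjoin ℂ ({t, π} : Set L)) L := by
    have := hb.isAlgebraic_field
    rwa [hrange] at this
  obtain ⟨s, hs⟩ := hfg
  set K := IntermediateField.adjoin ℂ ({t, π} : Set L) with hK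
  have htop : IntermediateField.adjoin K (s : Set L) = ⊤ := by
    rw [eq_top_iff]
    intro x _
    have hx : x ∈ IntermediateField.adjoin ℂ (s : Set L) := by rw [hs]; trivial
    have hle : IntermediateField.adjoin ℂ (s : Set L) ≤
        (IntermediateField.adjoin K (s : Set L)).restrictScalars ℂ := by
      rw [IntermediateField.adjoin_le_iff]
      exact IntermediateField.subset_adjoin K (s : Set L)
    exact hle hx
  have hfd : FiniteDimensional K (IntermediateField.adjoin K (s : Set L)) := by
    refine IntermediateField.finiteDimensional_adjoin ?_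
    intro x _
    exact (halg.isAlgebraic x).isIntegral
  rw [htop] at hfd
  exact IntermediateField.topEquiv.toLinearEquiv.finiteDimensional

end H73

end LCY
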