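import Pool.Agent.Helper73.LCY.NoeB
import Pool.Agent.Helper62.LCY.B2
import Pool.Agent.Helper81.LCY.RowsA

/-!
The intersection number with the first coordinate axis.
-/

open Polynomial

namespace LCY

namespace H73

open H62 H81

noncomputable section

variable {L : Type} [Field L] [Algebra ℂ L]

/-- The element of the local ring defined by a polynomial. -/
def pl (P : Coord L) (f : ℂ[X][X]) : P.loc := ⟨ev P.x P.y f, P.ev_mem_loc f⟩

theorem pl_coe (P : Coord L) (f : ℂ[X][X]) : (pl P f : L) = ev P.x P.y f := rfl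

theorem pl_mul (P : Coord L) (f g : ℂ[X][X]) : pl P (f * g) = pl P f * pl P g :=
  Subtype.ext (map_mul _ _ _)

theorem pl_add (P : Coord L) (f g : ℂ[X][X]) : pl P (f + g) = pl P f + pl P g :=
  Subtype.ext (map_add _ _ _)

theorem pl_sub (P : Coord L) (f g : ℂ[X][X]) : pl P (f - g) = pl P f - pl P g :=
  Subtype.ext (map_sub _ _ _)

theorem pl_inj {P : Coord L} {f g : ℂ[X][X]} (h : pl P f = pl P g) : f = g := by
  have h1 : ev P.x P.y (f - g) = 0 := by
    rw [map_sub, sub_eq_zero]; exact congrArg Subtype.val h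
  exact sub_eq_zero.1 (P.inj _ h1)

theorem pl_unit {P : Coord L} {f : ℂ[X][X]} (h : cf f (0, 0) ≠ 0) : IsUnit (pl P f) := by
  refine isUnit_iff_exists_inv.2 ⟨⟨(ev P.x P.y f)⁻¹, inv_mem_loc P h⟩, ?_⟩
  apply Subtype.ext
  change ev P.x P.y f * (ev P.x P.y f)⁻¹ = 1
  exact mul_inv_cancel₀ (P.ne (ne_of_cf h))

/-- Every element of the local ring is a fraction. -/
theorem loc_frac {P : Coord L} (z : P.loc) : ∃ f g : ℂ[X][X], cf g (0, 0) ≠ 0 ∧
    z * pl P g = pl P f := by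
  obtain ⟨z, f, g, hg, rfl⟩ := z
  refine ⟨f, g, hg, Subtype.ext ?_⟩
  change ev P.x P.y f / ev P.x P.y g * ev P.x P.y g = ev P.x P.y f
  exact div_mul_cancel₀ _ (P.ne (ne_of_cf hg))

theorem r0_cf (g : ℂ[X][X]) : (r0 g).coeff 0 = cf g (0, 0) := r0_coeff g 0

theorem r0_mapC (p : ℂ[X]) : r0 (p.map C) = p := by
  unfold r0
  rw [Polynomial.map_map]
  have : (evalRingHom (0 : ℂ)).comp (C : ℂ →+* ℂ[X]) = RingHom.id ℂ := by
    ext c; simp
  rw [this, Polynomial.map_id]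

theorem isCoprime_X_pow {u : ℂ[X]} (hu : u.coeff 0 ≠ 0) (e : ℕ) : IsCoprime u (X ^ e) := by
  refine IsCoprime.pow_right ?_
  refine IsCoprime.symm ((irreducible_X.coprime_iff_not_dvd).2 ?_)
  rw [X_dvd_iff]
  exact hu

/-- The ideal generated by the first coordinate and `h`. -/
def ixh (P : Coord L) (h : ℂ[X][X]) : Ideal P.loc :=
  Ideal.span {pl P (C X)} ⊔ Ideal.span {pl P h}

theorem mem_ixh {P : Coord L} {h : ℂ[X][X]} {z : P.loc} :
    z ∈ ixh P h ↔ ∃ a b, z = a * pl P (C X) + b * pl P h := by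
  unfold ixh
  rw [Submodule.mem_sup]
  constructor
  · rintro ⟨y, hy, w, hw, rfl⟩
    obtain ⟨a, rfl⟩ := Ideal.mem_span_singleton'.1 hy
    obtain ⟨b, rfl⟩ := Ideal.mem_span_singleton'.1 hw
    exact ⟨a, b, rfl⟩
  · rintro ⟨a, b, rfl⟩
    exact ⟨_, Ideal.mul_mem_left _ _ (Ideal.subset_span rfl), _,
      Ideal.mul_mem_left _ _ (Ideal.subset_span rfl), rfl⟩

/-- **LOC0.** -/
theorem loc0 (P : Coord L) {h : ℂ[X][X]} {e : ℕ} {u : ℂ[X]} (hu : u.coeff 0 ≠ 0)
    (hh : r0 h = X ^ e * u) : Module.finrank ℂ (P.loc ⧸ ixh P h) = e := by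
  let ψ : degreeLT ℂ e →ₗ[ℂ] (P.loc ⧸ ixh P h) :=
    (Ideal.Quotient.mkₐ ℂ (ixh P h)).toLinearMap.comp
      ((aeval (⟨P.y, y_mem P⟩ : P.loc)).toLinearMap.comp (degreeLT ℂ e).subtype)
  have hpl : ∀ p : ℂ[X], aeval (⟨P.y, y_mem P⟩ : P.loc) p = pl P (p.map C) := by
    intro p
    apply Subtype.ext
    rw [pl_coe, ev_mapC]
    exact (Subalgebra.aeval_coe P.loc ⟨P.y, y_mem P⟩ p).symm
  have hψ : ∀ p : degreeLT ℂ e, ψ p = Ideal.Quotient.mk _ (pl P ((p : ℂ[X]).map C)) := by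
    intro p
    rw [← hpl]; rfl
  have hinj : Function.Injective ψ := by
    rw [← LinearMap.ker_eq_bot, LinearMap.ker_eq_bot']
    rintro ⟨p, hp⟩ h0
    rw [hψ, Ideal.Quotient.eq_zero_iff_mem, mem_ixh] at h0
    obtain ⟨α, β, h0⟩ := h0
    obtain ⟨a1, b1, hb1, h1⟩ := loc_frac α
    obtain ⟨a2, b2, hb2, h2⟩ := loc_frac β
    have h3 : pl P (p.map C * (b1 * b2)) = pl P (C X * (a1 * b2) + h * (a2 * b1)) := by
      rw [pl_mul, pl_add, pl_mul, pl_mul, pl_mul, pl_mul, pl_mul, ← h1, ← h2]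
      dsimp only at h0
      rw [h0]
      ring
    have h4 := congrArg r0 (pl_inj h3)
    rw [r0_mul, r0_add, r0_mul, r0_mul, r0_mul, r0_mul, r0_mul, r0_mapC, r0_CX, hh] at h4
    have h5 : (X : ℂ[X]) ^ e ∣ p * (r0 b1 * r0 b2) :=
      ⟨u * (r0 a2 * r0 b1), by rw [h4]; ring⟩
    have h6 : IsCoprime ((X : ℂ[X]) ^ e) (r0 b1 * r0 b2) := by
      refine (isCoprime_X_pow ?_ e).symm
      rw [mul_coeff_zero, r0_cf, r0_cf]
      exact mul_ne_zero hb1 hb2
    have h7 : (X : ℂ[X]) ^ e ∣ p := h6.dvd_of_dvd_mul_right h5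
    apply Subtype.ext
    change p = 0
    by_contra hne
    rw [mem_degreeLT] at hp
    have h8 := degree_le_of_dvd h7 hne
    rw [degree_X_pow] at h8
    exact absurd (lt_of_lt_of_le hp h8) (lt_irrefl _)
  have hsurj : Function.Surjective ψ := by
    intro q
    obtain ⟨z, rfl⟩ := Ideal.Quotient.mk_surjective q
    obtain ⟨a, b, hb, hz⟩ := loc_frac z
    obtain ⟨s, t, hst⟩ := isCoprime_X_pow (u := r0 b) (by rw [r0_cf]; exact hb) e
    -- `r0 b * (s * r0 a) = r0 a` modulo `X ^ e`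
    set p := (s * r0 a) %ₘ (X ^ e) with hp
    have hpdeg : p ∈ degreeLT ℂ e := by
      rw [mem_degreeLT]
      have := degree_modByMonic_lt (s * r0 a) (monic_X_pow (R := ℂ) e)
      rwa [degree_X_pow] at this
    have h1 : ∃ w, r0 a - r0 b * p = X ^ e * w := by
      have h2 := modByMonic_add_div (s * r0 a) (X ^ e : ℂ[X])
      refine ⟨t * r0 a + r0 b * ((s * r0 a) /ₘ (X ^ e)), ?_⟩
      rw [← hp] at h2
      linear_combination (-(r0 a)) * hst - (r0 b) * h2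
    obtain ⟨w, hw⟩ := h1
    have h2 : C X ∣ u.map C * (a - b * p.map C) - w.map C * h := by
      apply dvd_of_r0
      rw [r0_sub, r0_mul, r0_sub, r0_mul, r0_mul, r0_mapC, r0_mapC, r0_mapC, hw, hh]
      ring
    obtain ⟨q, hq⟩ := h2
    refine ⟨⟨p, hpdeg⟩, ?_⟩
    rw [hψ, eq_comm, Ideal.Quotient.eq]
    have hU : IsUnit (pl P (u.map C) * pl P b) := by
      refine IsUnit.mul (pl_unit ?_) (pl_unit hb)
      rw [cf_mapC_zero]; exact hu
    have h3 : (pl P (u.map C) * pl P b) * (z - pl P (p.map C)) ∈ ixh P h := by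
      rw [mem_ixh]
      refine ⟨pl P q, pl P (w.map C), ?_⟩
      have h4 : u.map C * (a - b * p.map C) = q * C X + w.map C * h := by
        rw [mul_comm q, ← hq]; ring
      have h5 := congrArg (pl P) h4
      rw [pl_mul, pl_sub, pl_mul, pl_add, pl_mul, pl_mul, ← hz] at h5
      rw [← h5]
      ring
    exact ((ixh P h).unit_mul_mem_iff_mem hU).1 h3
  rw [← (LinearEquiv.ofBijective ψ ⟨hinj, hsurj⟩).finrank_eq, (degreeLTEquiv ℂ e).finrank_eq,
    Module.finrank_fin_fun]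

end

end H73

end LCY
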