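import Mathlib

/-!
Relative dimension of subspaces and the counting argument of Noether's formula.
-/

namespace LCY

namespace H73

noncomputable section

section rd

variable {F M M' : Type*} [Field F] [AddCommGroup M] [Module F M] [AddCommGroup M'] [Module F M']

/-- The relative dimension of two subspaces. -/
def rd (S T : Submodule F M) : ℕ := Module.finrank F (T ⧸ S.submoduleOf T)

/-- The relative dimension is finite. -/
def rf (S T : Submodule F M) : Prop := Module.Finite F (T ⧸ S.submoduleOf T)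

theorem submoduleOf_mono {S T W : Submodule F M} (h : S ≤ T) :
    S.submoduleOf W ≤ T.submoduleOf W := fun _ hx => h hx

/-- The canonical map `W / S → W / T`. -/
def qW {S T : Submodule F M} (W : Submodule F M) (h1 : S ≤ T) :
    (W ⧸ S.submoduleOf W) →ₗ[F] (W ⧸ T.submoduleOf W) :=
  Submodule.mapQ _ _ LinearMap.id (submoduleOf_mono h1)

/-- The canonical map `T / S → W / S`. -/
def qT (S : Submodule F M) {T W : Submodule F M} (h2 : T ≤ W) :
    (T ⧸ S.submoduleOf T) →ₗ[F] (W ⧸ S.submoduleOf W) :=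
  Submodule.mapQ _ _ (Submodule.inclusion h2) (fun _ hx => hx)

theorem qW_surj {S T : Submodule F M} (W : Submodule F M) (h1 : S ≤ T) :
    Function.Surjective (qW W h1) := by
  intro z
  obtain ⟨w, rfl⟩ := Submodule.mkQ_surjective _ z
  exact ⟨Submodule.Quotient.mk w, rfl⟩

theorem qT_inj (S : Submodule F M) {T W : Submodule F M} (h2 : T ≤ W) :
    Function.Injective (qT S h2) := by
  rw [← LinearMap.ker_eq_bot, LinearMap.ker_eq_bot']
  intro z hz
  obtain ⟨t, rfl⟩ := Submodule.mkQ_surjective _ z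
  have h3 : (Submodule.Quotient.mk (Submodule.inclusion h2 t) : W ⧸ S.submoduleOf W) = 0 := hz
  rw [Submodule.Quotient.mk_eq_zero] at h3
  exact (Submodule.Quotient.mk_eq_zero _).2 h3

theorem ker_qW {S T W : Submodule F M} (h1 : S ≤ T) (h2 : T ≤ W) :
    LinearMap.ker (qW W h1) = LinearMap.range (qT S h2) := by
  ext z
  constructor
  · intro hz
    obtain ⟨w, rfl⟩ := Submodule.mkQ_surjective _ z
    have h3 : (Submodule.Quotient.mk w : W ⧸ T.submoduleOf W) = 0 := hz
    rw [Submodule.Quotient.mk_eq_zero] at h3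
    exact ⟨Submodule.Quotient.mk ⟨w, h3⟩, rfl⟩
  · rintro ⟨y, rfl⟩
    obtain ⟨t, rfl⟩ := Submodule.mkQ_surjective _ y
    change (Submodule.Quotient.mk (Submodule.inclusion h2 t) : W ⧸ T.submoduleOf W) = 0
    rw [Submodule.Quotient.mk_eq_zero]
    exact t.2

theorem rf_left {S T W : Submodule F M} (h2 : T ≤ W) (h : rf S W) : rf S T := by
  have := h
  unfold rf at this ⊢
  exact Module.Finite.of_injective (qT S h2) (qT_inj S h2)

theorem rf_right {S T W : Submodule F M} (h1 : S ≤ T) (h : rf S W) : rf T W := by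
  have := h
  unfold rf at this ⊢
  exact Module.Finite.of_surjective (qW W h1) (qW_surj W h1)

theorem rf_trans {S T W : Submodule F M} (h1 : S ≤ T) (h2 : T ≤ W) (h : rf S T) (h' : rf T W) :
    rf S W := by
  unfold rf at *
  have h3 : Module.Finite F (LinearMap.range (qW W h1)) := inferInstance
  have h4 : Module.Finite F (LinearMap.ker (qW W h1)) := by
    rw [ker_qW h1 h2]
    infer_instance
  have h5 : Module.Finite F ((W ⧸ S.submoduleOf W) ⧸ LinearMap.ker (qW W h1)) :=
    Module.Finite.equiv (qW W h1).quotKerEquivRange.symm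
  exact Module.Finite.of_submodule_quotient (LinearMap.ker (qW W h1))

theorem rd_trans {S T W : Submodule F M} (h1 : S ≤ T) (h2 : T ≤ W) (h : rf S W) :
    rd S W = rd S T + rd T W := by
  unfold rf at h
  have h3 := LinearMap.finrank_range_add_finrank_ker (qW W h1)
  rw [ker_qW h1 h2, LinearMap.range_eq_top.2 (qW_surj W h1), finrank_top,
    LinearMap.finrank_range_of_inj (qT_inj S h2)] at h3
  unfold rd
  omega

/-- The isomorphism of quotients induced by an injective map. -/
def mapEquiv (e : M →ₗ[F] M') (he : Function.Injective e) (S T : Submodule F M) :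
    (T ⧸ S.submoduleOf T) ≃ₗ[F] (T.map e ⧸ (S.map e).submoduleOf (T.map e)) :=
  Submodule.Quotient.equiv _ _ (Submodule.equivMapOfInjective e he T) (by
    ext ⟨z, hz⟩
    constructor
    · rintro ⟨t, ht, h⟩
      have h1 : e (t : M) = z := congrArg Subtype.val h
      change z ∈ S.map e
      rw [← h1]
      exact ⟨t, ht, rfl⟩
    · rintro ⟨s, hs, h⟩
      obtain ⟨t, ht, h'⟩ := hz
      have h1 : s = t := he (by rw [h]; exact h'.symm)
      refine ⟨⟨t, ht⟩, ?_, Subtype.ext h'⟩
      change t ∈ S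
      rw [← h1]
      exact hs)

theorem rd_map (e : M →ₗ[F] M') (he : Function.Injective e) (S T : Submodule F M) :
    rd (S.map e) (T.map e) = rd S T := (mapEquiv e he S T).finrank_eq.symm

theorem rf_map (e : M →ₗ[F] M') (he : Function.Injective e) (S T : Submodule F M) :
    rf (S.map e) (T.map e) ↔ rf S T :=
  ⟨fun h => by unfold rf at *; exact Module.Finite.equiv (mapEquiv e he S T).symm,
    fun h => by unfold rf at *; exact Module.Finite.equiv (mapEquiv e he S T)⟩

end rd

section field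

variable {F L : Type*} [Field F] [Field L] [Algebra F L]

/-- The multiple of a subspace. -/
def mu (g : L) (W : Submodule F L) : Submodule F L := W.map (LinearMap.mulLeft F g)

theorem mem_mu {g : L} {W : Submodule F L} {z : L} : z ∈ mu g W ↔ ∃ w ∈ W, g * w = z := Iff.rfl

theorem mu_mono (g : L) {W W' : Submodule F L} (h : W ≤ W') : mu g W ≤ mu g W' :=
  Submodule.map_mono h

theorem mu_mul (g g' : L) (W : Submodule F L) : mu (g * g') W = mu g (mu g' W) := by
  ext z
  constructor
  · rintro ⟨w, hw, h⟩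
    exact ⟨g' * w, ⟨w, hw, rfl⟩, by rw [← h]; change g * (g' * w) = g * g' * w; ring⟩
  · rintro ⟨_, ⟨w, hw, rfl⟩, h⟩
    exact ⟨w, hw, by rw [← h]; change g * g' * w = g * (g' * w); ring⟩

theorem mu_one (W : Submodule F L) : mu 1 W = W := by
  ext z
  constructor
  · rintro ⟨w, hw, rfl⟩
    change 1 * w ∈ W
    rwa [one_mul]
  · intro hz
    exact ⟨z, hz, one_mul z⟩

theorem mulLeft_inj {g : L} (hg : g ≠ 0) : Function.Injective (LinearMap.mulLeft F g) :=
  fun _ _ h => mul_left_cancel₀ hg h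

theorem rd_mu {g : L} (hg : g ≠ 0) (S T : Submodule F L) : rd (mu g S) (mu g T) = rd S T :=
  rd_map _ (mulLeft_inj hg) S T

theorem rf_mu {g : L} (hg : g ≠ 0) (S T : Submodule F L) : rf (mu g S) (mu g T) ↔ rf S T :=
  rf_map _ (mulLeft_inj hg) S T

theorem rd_self (S : Submodule F L) : rd S S = 0 := by
  unfold rd
  have : S.submoduleOf S = ⊤ := by
    ext z
    simp [Submodule.submoduleOf]
  rw [this]
  exact Module.finrank_zero_of_subsingleton

theorem rf_self (S : Submodule F L) : rf S S := by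
  unfold rf
  have : S.submoduleOf S = ⊤ := by
    ext z
    simp [Submodule.submoduleOf]
  rw [this]
  infer_instance

theorem mu_pow_le {x : L} {W : Submodule F L} (h : mu x W ≤ W) (n : ℕ) : mu (x ^ n) W ≤ W := by
  induction n with
  | zero => rw [pow_zero, mu_one]
  | succ n ih =>
    rw [pow_succ, mu_mul]
    exact (mu_mono _ h).trans ih

theorem rd_pow {x : L} (hx : x ≠ 0) {W : Submodule F L} (h : mu x W ≤ W) (hf : rf (mu x W) W)
    (n : ℕ) : rf (mu (x ^ n) W) W ∧ rd (mu (x ^ n) W) W = n * rd (mu x W) W := by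
  induction n with
  | zero =>
    rw [pow_zero, mu_one]
    exact ⟨rf_self W, by rw [rd_self, zero_mul]⟩
  | succ n ih =>
    rw [pow_succ, mu_mul]
    have h1 : mu (x ^ n) (mu x W) ≤ mu (x ^ n) W := mu_mono _ h
    have h2 : rf (mu (x ^ n) (mu x W)) (mu (x ^ n) W) := (rf_mu (pow_ne_zero n hx) _ _).2 hf
    have h3 := rf_trans h1 (mu_pow_le h n) h2 ih.1
    refine ⟨h3, ?_⟩
    rw [rd_trans h1 (mu_pow_le h n) h3, rd_mu (pow_ne_zero n hx), ih.2]
    ring

/-- Two subspaces of finite index in each other: multiplication has the same index. -/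
theorem rd_eq {g : L} (hg : g ≠ 0) {A B : Submodule F L} (hAB : A ≤ B) (hf : rf A B)
    (hA : mu g A ≤ A) (hB : mu g B ≤ B) (hfA : rf (mu g A) A) :
    rf (mu g B) B ∧ rd (mu g A) A = rd (mu g B) B := by
  have h1 : rf (mu g A) B := rf_trans hA hAB hfA hf
  have h2 : mu g A ≤ mu g B := mu_mono g hAB
  have h3 := rd_trans hA hAB h1
  have h4 := rd_trans h2 hB h1
  rw [rd_mu hg] at h4
  exact ⟨rf_right h2 h1, by omega⟩

/-- **The counting argument.** -/
theorem count {x g₁ : L} (hx : x ≠ 0) (hg₁ : g₁ ≠ 0) {A B : Submodule F L} (hAB : A ≤ B)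
    (hxA : mu x A ≤ A) (hxB : mu x B ≤ B) {k : ℕ} (hk : mu (x ^ k) B ≤ A)
    (hfx : rf (mu x A) A) (hg₁B : mu g₁ B ≤ B) {n : ℕ} (hgA : mu (x ^ n * g₁) A ≤ A) {N : ℕ}
    (hN : mu (x ^ N) A ≤ mu (x ^ n * g₁) A) :
    rf (mu (x ^ n * g₁) A) A ∧ rf (mu g₁ B) B ∧ rf (mu x B) B ∧
      rd (mu x A) A = rd (mu x B) B ∧
      rd (mu (x ^ n * g₁) A) A = n * rd (mu x A) A + rd (mu g₁ B) B := by
  have hxk := pow_ne_zero k hx
  have hg : x ^ n * g₁ ≠ 0 := mul_ne_zero (pow_ne_zero n hx) hg₁
  -- finite index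
  have hf : rf A B := by
    rw [← rf_mu hxk]
    exact rf_left hk (rd_pow hx hxA hfx k).1
  have h1 : rf (mu (x ^ n * g₁) A) A := rf_right hN (rd_pow hx hxA hfx N).1
  have h2 := rd_eq hx hAB hf hxA hxB hfx
  have hgB : mu (x ^ n * g₁) B ≤ B := by
    rw [mu_mul]
    exact (mu_mono _ hg₁B).trans (mu_pow_le hxB n)
  have h3 := rd_eq hg hAB hf hgA hgB h1
  have h4 : rf (mu (x ^ n) (mu g₁ B)) B := by
    rw [← mu_mul]; exact h3.1
  have h5 := rd_trans (mu_mono (x ^ n) hg₁B) (mu_pow_le hxB n) h4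
  have h6 : rf (mu g₁ B) B := by
    rw [← rf_mu (pow_ne_zero n hx)]
    exact rf_left (mu_pow_le hxB n) h4
  refine ⟨h1, h6, h2.1, h2.2, ?_⟩
  rw [h3.2, mu_mul, h5, rd_mu (pow_ne_zero n hx), (rd_pow hx hxB h2.1 n).2, h2.2]
  ring

end field

end

end H73

end LCY
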