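import Pool.Agent.Helper73.LCY.NoeA
import Pool.Agent.Helper73.LCY.Inter
import Pool.Agent.Helper51.LCY.P2

/-!
Lattices attached to a curve `v`: the subspaces `R + m_v`.
-/

open Polynomial

namespace LCY

namespace H73

noncomputable section

variable {L : Type} [Field L] [Algebra ℂ L]

/-- The elements of positive value. -/
def mv (v : DVal L) : Submodule ℂ L where
  carrier := {z | v.Pos z}
  add_mem' := fun ha hb => v.pos_add ha hb
  zero_mem' := Or.inl rfl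
  smul_mem' := fun c z hz => by
    change v.Pos (c • z)
    rw [Algebra.smul_def, mul_comm]
    exact v.pos_mul_int hz (v.int_const c)

theorem mem_mv {v : DVal L} {z : L} : z ∈ mv v ↔ v.Pos z := Iff.rfl

/-- The lattice of a local ring contained in the valuation ring of `v`. -/
def lat (v : DVal L) (R : Subalgebra ℂ L) : Submodule ℂ L := Subalgebra.toSubmodule R ⊔ mv v

theorem mem_lat {v : DVal L} {R : Subalgebra ℂ L} {z : L} :
    z ∈ lat v R ↔ ∃ r ∈ R, ∃ μ, v.Pos μ ∧ r + μ = z := by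
  unfold lat
  rw [Submodule.mem_sup]
  rfl

theorem lat_mono {v : DVal L} {R R' : Subalgebra ℂ L} (h : R ≤ R') : lat v R ≤ lat v R' :=
  sup_le_sup (fun _ hz => h hz) le_rfl

theorem mem_pid {v : DVal L} {R : Subalgebra ℂ L} (hR : ∀ z ∈ R, v.Int z) {z : R} :
    z ∈ pid R v ↔ v.Pos (z : L) := by
  constructor
  · intro hz
    refine Submodule.span_induction (p := fun (z : R) _ => v.Pos (z : L)) ?_ ?_ ?_ ?_ hz
    · exact fun _ h => h
    · exact Or.inl rfl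
    · exact fun x y _ _ hx hy => v.pos_add hx hy
    · intro a x _ hx
      change v.Pos ((a : L) * (x : L))
      rw [mul_comm]
      exact v.pos_mul_int hx (hR _ a.2)
  · exact fun h => Ideal.subset_span h

theorem pos_mul {v : DVal L} {g z : L} (hg : v.Int g) (hz : v.Pos z) : v.Pos (g * z) := by
  rw [mul_comm]; exact v.pos_mul_int hz hg

theorem mu_lat_le {v : DVal L} {R : Subalgebra ℂ L} {g : L} (hg : g ∈ R) (hgv : v.Int g) :
    mu g (lat v R) ≤ lat v R := by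
  rintro _ ⟨w, hw, rfl⟩
  obtain ⟨r, hr, μ, hμ, rfl⟩ := mem_lat.1 hw
  refine mem_lat.2 ⟨g * r, R.mul_mem hg hr, g * μ, pos_mul hgv hμ, ?_⟩
  change g * r + g * μ = g * (r + μ)
  ring

theorem inv_int {v : DVal L} {g : L} (hg0 : g ≠ 0) (hg : v.v g = 0) : v.Int g⁻¹ :=
  Or.inr (by rw [v.map_inv hg0, hg, neg_zero])

/-- Elements of the multiple of a lattice. -/
theorem mem_mu_lat {v : DVal L} {R : Subalgebra ℂ L} {g : L} (hg0 : g ≠ 0) (hg : v.v g = 0)
    {z : L} : z ∈ mu g (lat v R) ↔ ∃ r ∈ R, v.Pos (z - g * r) := by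
  constructor
  · rintro ⟨w, hw, rfl⟩
    obtain ⟨r, hr, μ, hμ, rfl⟩ := mem_lat.1 hw
    refine ⟨r, hr, ?_⟩
    have : g * (r + μ) - g * r = g * μ := by ring
    change v.Pos (g * (r + μ) - g * r)
    rw [this]
    exact pos_mul (Or.inr hg.ge) hμ
  · rintro ⟨r, hr, h⟩
    refine ⟨r + g⁻¹ * (z - g * r), mem_lat.2 ⟨r, hr, _, pos_mul (inv_int hg0 hg) h, rfl⟩, ?_⟩
    change g * (r + g⁻¹ * (z - g * r)) = z
    field_simp
    ring

/-- The linear map from the ring to the quotient of the lattice. -/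
def toQ (v : DVal L) (R : Subalgebra ℂ L) (g : L) :
    R →ₗ[ℂ] (lat v R ⧸ (mu g (lat v R)).submoduleOf (lat v R)) :=
  (Submodule.mkQ _).comp (LinearMap.codRestrict (lat v R) (Subalgebra.toSubmodule R).subtype
    (fun r => mem_lat.2 ⟨r, r.2, 0, Or.inl rfl, add_zero _⟩))

theorem toQ_surj {v : DVal L} {R : Subalgebra ℂ L} {g : L} (hg0 : g ≠ 0) (hg : v.v g = 0) :
    Function.Surjective (toQ v R g) := by
  intro z
  obtain ⟨⟨w, hw⟩, rfl⟩ := Submodule.mkQ_surjective _ z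
  obtain ⟨r, hr, μ, hμ, rfl⟩ := mem_lat.1 hw
  refine ⟨⟨r, hr⟩, ?_⟩
  change Submodule.Quotient.mk _ = Submodule.Quotient.mk _
  rw [Submodule.Quotient.eq]
  change r - (r + μ) ∈ mu g (lat v R)
  rw [mem_mu_lat hg0 hg]
  refine ⟨0, R.zero_mem, ?_⟩
  have : r - (r + μ) - g * 0 = -μ := by ring
  rw [this]
  exact v.pos_neg hμ

theorem ker_toQ {v : DVal L} {R : Subalgebra ℂ L} (hR : ∀ z ∈ R, v.Int z) {g : L} (hgR : g ∈ R)
    (hg0 : g ≠ 0) (hg : v.v g = 0) :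
    LinearMap.ker (toQ v R g) = (pid R v ⊔ Ideal.span {(⟨g, hgR⟩ : R)}).restrictScalars ℂ := by
  ext r
  have h1 : r ∈ LinearMap.ker (toQ v R g) ↔ (r : L) ∈ mu g (lat v R) := by
    rw [LinearMap.mem_ker]
    change Submodule.Quotient.mk _ = (0 : _ ⧸ _) ↔ _
    rw [Submodule.Quotient.mk_eq_zero]
    rfl
  rw [h1, mem_mu_lat hg0 hg, Submodule.restrictScalars_mem, Submodule.mem_sup]
  constructor
  · rintro ⟨r', hr', h⟩
    refine ⟨r - ⟨g, hgR⟩ * ⟨r', hr'⟩, (mem_pid hR).2 h, ⟨g, hgR⟩ * ⟨r', hr'⟩,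
      Ideal.mul_mem_right _ _ (Ideal.subset_span rfl), sub_add_cancel _ _⟩
  · rintro ⟨y, hy, z, hz, rfl⟩
    obtain ⟨a, rfl⟩ := Ideal.mem_span_singleton'.1 hz
    refine ⟨a, a.2, ?_⟩
    have : ((y + a * ⟨g, hgR⟩ : R) : L) - g * (a : L) = y := by
      push_cast
      ring
    rw [this]
    exact (mem_pid hR).1 hy

/-- The quotient of the lattice by its multiple is the quotient of the ring. -/
def quotE {v : DVal L} {R : Subalgebra ℂ L} (hR : ∀ z ∈ R, v.Int z) {g : L} (hgR : g ∈ R)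
    (hg0 : g ≠ 0) (hg : v.v g = 0) :
    (R ⧸ (pid R v ⊔ Ideal.span {(⟨g, hgR⟩ : R)})) ≃ₗ[ℂ]
      (lat v R ⧸ (mu g (lat v R)).submoduleOf (lat v R)) :=
  (Submodule.Quotient.restrictScalarsEquiv ℂ _).symm.trans
    ((Submodule.quotEquivOfEq _ _ (ker_toQ hR hgR hg0 hg).symm).trans
      ((toQ v R g).quotKerEquivOfSurjective (toQ_surj hg0 hg)))

theorem rd_lat {v : DVal L} {R : Subalgebra ℂ L} (hR : ∀ z ∈ R, v.Int z) {g : L} (hgR : g ∈ R)
    (hg0 : g ≠ 0) (hg : v.v g = 0) :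
    rd (mu g (lat v R)) (lat v R) =
      Module.finrank ℂ (R ⧸ (pid R v ⊔ Ideal.span {(⟨g, hgR⟩ : R)})) :=
  (quotE hR hgR hg0 hg).finrank_eq.symm

theorem rf_lat {v : DVal L} {R : Subalgebra ℂ L} (hR : ∀ z ∈ R, v.Int z) {g : L} (hgR : g ∈ R)
    (hg0 : g ≠ 0) (hg : v.v g = 0) :
    rf (mu g (lat v R)) (lat v R) ↔
      Module.Finite ℂ (R ⧸ (pid R v ⊔ Ideal.span {(⟨g, hgR⟩ : R)})) :=
  ⟨fun h => by unfold rf at h; exact Module.Finite.equiv (quotE hR hgR hg0 hg).symm,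
    fun h => by unfold rf; exact Module.Finite.equiv (quotE hR hgR hg0 hg)⟩

end

end H73

end LCY
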