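import Pool.Agent.Helper73.LCY.Loc0
import Pool.Agent.Helper98.LCY.LocE

/-!
The chart ring `R[y/x]` of the blow-up of a point.
-/

open Polynomial

namespace LCY

namespace H73

open H62 H81

noncomputable section

variable {L : Type} [Field L] [Algebra ℂ L]

/-- The function `y / x`. -/
def tt (P : Coord L) : L := P.y / P.x

theorem st0_x (P : Coord L) : (P.st (some 0)).x = P.x := P.st_some_x 0

theorem st0_y (P : Coord L) : (P.st (some 0)).y = tt P := by
  rw [P.st_some_y, map_zero, sub_zero]; rfl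

theorem stc_x (P : Coord L) (c : ℂ) : (P.st (some c)).x = P.x := P.st_some_x c

theorem stc_y (P : Coord L) (c : ℂ) : (P.st (some c)).y = tt P - algebraMap ℂ L c :=
  P.st_some_y c

/-- Evaluation in the chart. -/
theorem evt_ne (P : Coord L) {h : ℂ[X][X]} (hh : h ≠ 0) : ev P.x (tt P) h ≠ 0 := by
  have := (P.st (some 0)).ne hh
  rwa [st0_x, st0_y] at this

theorem evt_bl (P : Coord L) (f : ℂ[X][X]) : ev P.x (tt P) (bl (some 0) f) = ev P.x P.y f := by
  have := P.ev_st (some 0) f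
  rwa [st0_x, st0_y] at this

/-- The chart ring. -/
def ch (P : Coord L) : Subalgebra ℂ L where
  carrier := {z | ∃ h b : ℂ[X][X], cf b (0, 0) ≠ 0 ∧ z = ev P.x (tt P) h / ev P.x P.y b}
  mul_mem' := by
    rintro _ _ ⟨h, b, hb, rfl⟩ ⟨h', b', hb', rfl⟩
    refine ⟨h * h', b * b', ?_, by rw [map_mul, map_mul, div_mul_div_comm]⟩
    rw [cf0_mul]; exact mul_ne_zero hb hb'
  add_mem' := by
    rintro _ _ ⟨h, b, hb, rfl⟩ ⟨h', b', hb', rfl⟩
    refine ⟨h * bl (some 0) b' + h' * bl (some 0) b, b * b', ?_, ?_⟩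
    · rw [cf0_mul]; exact mul_ne_zero hb hb'
    · rw [map_add, map_mul, map_mul, map_mul, evt_bl, evt_bl,
        div_add_div _ _ (P.ne (ne_of_cf0 hb)) (P.ne (ne_of_cf0 hb'))]
      ring
  algebraMap_mem' := by
    intro c
    refine ⟨C (C c), 1, ?_, by rw [map_one, div_one, ev_CC]⟩
    rw [cf0_one]; exact one_ne_zero

theorem loc_le_ch (P : Coord L) : P.loc ≤ ch P := by
  rintro _ ⟨f, g, hg, rfl⟩
  exact ⟨bl (some 0) f, g, hg, by rw [evt_bl]⟩

theorem evt_mem (P : Coord L) (h : ℂ[X][X]) : ev P.x (tt P) h ∈ ch P :=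
  ⟨h, 1, by rw [cf0_one]; exact one_ne_zero, by rw [map_one, div_one]⟩

theorem tt_mem (P : Coord L) : tt P ∈ ch P := by
  have := evt_mem P X
  rwa [ev_X] at this

theorem x_mem_ch (P : Coord L) : P.x ∈ ch P := loc_le_ch P (x_mem P)

/-- The chart in the coordinates of the point `c`. -/
theorem evt_trl (P : Coord L) (c : ℂ) (h : ℂ[X][X]) :
    ev (P.st (some c)).x (P.st (some c)).y (trl 0 c h) = ev P.x (tt P) h := by
  have := ev_trl P.x (tt P) 0 c h
  rw [map_zero, sub_zero] at this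
  rw [stc_x, stc_y, this]

theorem ch_le (P : Coord L) (c : ℂ) : ch P ≤ (P.st (some c)).loc := by
  rintro _ ⟨h, b, hb, rfl⟩
  refine ⟨trl 0 c h, bl (some c) b, ?_, ?_⟩
  · rw [cf_bl_zero]; exact hb
  · rw [evt_trl, P.ev_st]

/-- Every element of the local ring of the point `c` is a fraction of elements of the chart. -/
theorem exists_frac_ch (P : Coord L) (c : ℂ) {z : L} (hz : z ∈ (P.st (some c)).loc) :
    ∃ f g : ℂ[X][X], cf g (0, 0) ≠ 0 ∧
      z * ev (P.st (some c)).x (P.st (some c)).y g = ev (P.st (some c)).x (P.st (some c)).y f := by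
  obtain ⟨f, g, hg, rfl⟩ := hz
  exact ⟨f, g, hg, div_mul_cancel₀ _ ((P.st (some c)).ne (ne_of_cf0 hg))⟩

theorem evc_mem (P : Coord L) (c : ℂ) (f : ℂ[X][X]) :
    ev (P.st (some c)).x (P.st (some c)).y f ∈ ch P := by
  have h1 := ev_trl (P.st (some c)).x (P.st (some c)).y 0 (-c) f
  rw [map_zero, sub_zero, map_neg, sub_neg_eq_add, stc_y, sub_add_cancel, stc_x] at h1
  have h2 := evt_mem P (trl 0 (-c) f)
  rw [h1, ← stc_y, ← stc_x P c] at h2
  exact h2

variable {P : Coord L} {v : DVal L} {f : ℂ[X][X]}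

theorem int_x (hv : IsAdic P f v) : v.Int P.x := by
  rw [← ev_CX P.x P.y]
  exact H98.adic_int hv _

theorem x_val (hv : IsAdic P f v) (hx : ¬ f ∣ C X) : v.v P.x = 0 := by
  have := H98.adic_zero hv hx
  rwa [ev_CX] at this

theorem int_tt (hv : IsAdic P f v) (hx : ¬ f ∣ C X) : v.Int (tt P) := by
  have h1 : v.Int P.y := by
    rw [← ev_X P.x P.y]; exact H98.adic_int hv _
  unfold tt
  rw [div_eq_mul_inv]
  exact v.int_mul h1 (inv_int P.x_ne (x_val hv hx))

theorem unit_val (hv : IsAdic P f v) (h0 : cf f (0, 0) = 0) {b : ℂ[X][X]}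
    (hb : cf b (0, 0) ≠ 0) : v.v (ev P.x P.y b) = 0 := by
  apply H98.adic_zero hv
  rintro ⟨k, rfl⟩
  rw [cf0_mul, h0, zero_mul] at hb
  exact hb rfl

theorem int_ch (hv : IsAdic P f v) (h0 : cf f (0, 0) = 0) (hx : ¬ f ∣ C X) :
    ∀ z ∈ ch P, v.Int z := by
  rintro _ ⟨h, b, hb, rfl⟩
  rw [div_eq_mul_inv]
  exact v.int_mul (v.int_ev (int_x hv) (int_tt hv hx) h)
    (inv_int (P.ne (ne_of_cf0 hb)) (unit_val hv h0 hb))

theorem int_loc (hv : IsAdic P f v) (h0 : cf f (0, 0) = 0) : ∀ z ∈ P.loc, v.Int z :=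
  adic_int_loc hv h0

/-- The ideal of the curve is generated by its equation. -/
theorem pid_eq (hv : IsAdic P f v) (h0 : cf f (0, 0) = 0) :
    pid P.loc v = Ideal.span {pl P f} := by
  apply le_antisymm
  · intro z hz
    rw [mem_pid (int_loc hv h0)] at hz
    obtain ⟨a, b, hb, h⟩ := loc_frac z
    have h1 : v.Pos (ev P.x P.y a) := by
      rw [← pl_coe, ← h]
      change v.Pos ((z : L) * ev P.x P.y b)
      exact v.pos_mul_int hz (H98.adic_int hv b)
    have h2 : f ∣ a := by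
      rcases h1 with h1 | h1
      · rw [P.inj _ h1]; exact dvd_zero _
      · by_contra hd
        rw [H98.adic_zero hv hd] at h1
        exact lt_irrefl _ h1
    obtain ⟨k, rfl⟩ := h2
    have h3 : z * pl P b ∈ Ideal.span {pl P f} := by
      rw [h, pl_mul]
      exact Ideal.mul_mem_right _ _ (Ideal.subset_span rfl)
    rw [mul_comm] at h3
    exact ((Ideal.span {pl P f}).unit_mul_mem_iff_mem (pl_unit hb)).1 h3
  · rw [Ideal.span_le, Set.singleton_subset_iff, SetLike.mem_coe, mem_pid (int_loc hv h0)]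
    right
    rw [pl_coe, H98.adic_one hv]
    norm_num

end

end H73

end LCY
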