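import Pool.Agent.Helper73.LCY.NoeC
import Pool.Agent.Helper51.LCY.P3

/-!
The chart ring is finite over the local ring modulo the curve; the counting argument applies.
-/

open Polynomial

namespace LCY

namespace H73

open H62 H81

noncomputable section

variable {L : Type} [Field L] [Algebra ℂ L]

theorem x_ttx (P : Coord L) : P.x * tt P = P.y := by
  unfold tt
  have := P.x_ne
  field_simp

/-- Evaluation of a polynomial over the local ring at `t`. -/
def et (P : Coord L) : (P.loc)[X] →+* L := eval₂RingHom (algebraMap P.loc L) (tt P)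

theorem et_mem (P : Coord L) (p : (P.loc)[X]) : et P p ∈ ch P := by
  change eval₂ _ _ p ∈ ch P
  rw [eval₂_eq_sum_range]
  refine Subalgebra.sum_mem _ fun i _ => ?_
  exact Subalgebra.mul_mem _ (loc_le_ch P (p.coeff i).2) (Subalgebra.pow_mem _ (tt_mem P) _)

/-- Polynomials in `x, t` are polynomials in `t` over the local ring. -/
theorem exists_et (P : Coord L) (h : ℂ[X][X]) : ∃ p : (P.loc)[X], et P p = ev P.x (tt P) h := by
  refine ⟨h.map (aeval (⟨P.x, x_mem P⟩ : P.loc) : ℂ[X] →ₐ[ℂ] P.loc).toRingHom, ?_⟩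
  change eval₂ _ _ _ = _
  rw [eval₂_map, ev_apply]
  congr 1
  ext c
  · simp
  · simp

/-- A monic relation of degree `m` for `t` modulo the curve. -/
theorem exists_monic {P : Coord L} {v : DVal L} {f : ℂ[X][X]} (hv : IsAdic P f v)
    (h0 : cf f (0, 0) = 0) (hx : ¬ f ∣ C X) {m : ℕ} (hm : OG m f) (hm' : cf f (0, m) ≠ 0) :
    ∃ q : (P.loc)[X], q.Monic ∧ q.natDegree = m ∧ v.Pos (et P q) := by
  classical
  -- the leading coefficient
  set U : ℂ[X][X] := ∑ e ∈ (bs f).filter (fun e => m ≤ e.2),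
    monomial (e.2 - m) (monomial e.1 (cf f e)) with hU
  have hU0 : cf U (0, 0) ≠ 0 := by
    have h1 : cf U (0, 0) = cf f (0, m) := by
      unfold cf
      rw [hU, finsetSum_coeff, finsetSum_coeff, Finset.sum_eq_single (0, m)]
      · simp [cf]
      · intro e he hne
        rw [Finset.mem_filter] at he
        rw [coeff_monomial]
        split_ifs with h2
        · rw [coeff_monomial, if_neg]
          intro h3
          exact hne (Prod.ext h3 (by omega))
        · simp
      · intro h
        exact absurd (Finset.mem_filter.2 ⟨mem_bs.2 hm', le_refl m⟩) h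
    rw [h1]; exact hm'
  have hUv := unit_val hv h0 hU0
  have hUne := P.ne (ne_of_cf0 hU0)
  let Ui : P.loc := ⟨(ev P.x P.y U)⁻¹, inv_mem_loc P hU0⟩
  let xx : P.loc := ⟨P.x, x_mem P⟩
  -- the lower part
  set r : (P.loc)[X] := ∑ e ∈ (bs f).filter (fun e => e.2 < m),
    C (Ui * (algebraMap ℂ P.loc (cf f e) * xx ^ (e.1 + e.2 - m))) * X ^ e.2 with hr
  have hrdeg : r.degree < m := by
    rw [← mem_degreeLT, hr]
    refine Submodule.sum_mem _ fun e he => ?_
    rw [Finset.mem_filter] at he
    rw [mem_degreeLT]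
    refine lt_of_le_of_lt (degree_C_mul_X_pow_le _ _) ?_
    exact_mod_cast he.2
  refine ⟨X ^ m + r, monic_X_pow_add hrdeg, ?_, ?_⟩
  · rw [natDegree_add_eq_left_of_degree_lt, natDegree_X_pow]
    rw [degree_X_pow]
    exact hrdeg
  · have hxne := P.x_ne
    have key : ev P.x P.y U * et P (X ^ m + r) * P.x ^ m = ev P.x P.y f := by
      have h1 : et P (X ^ m) = tt P ^ m := by
        change eval₂ _ _ _ = _
        rw [eval₂_X_pow]
      have h2 : et P r = (ev P.x P.y U)⁻¹ * ∑ e ∈ (bs f).filter (fun e => e.2 < m),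
          algebraMap ℂ L (cf f e) * P.x ^ (e.1 + e.2 - m) * tt P ^ e.2 := by
        rw [hr, map_sum, Finset.mul_sum]
        refine Finset.sum_congr rfl fun e _ => ?_
        change eval₂ _ _ _ = _
        rw [eval₂_mul, eval₂_C, eval₂_X_pow]
        change (ev P.x P.y U)⁻¹ * (algebraMap ℂ L (cf f e) * P.x ^ (e.1 + e.2 - m)) * _ = _
        ring
      have h3 : ev P.x P.y U = ∑ e ∈ (bs f).filter (fun e => m ≤ e.2),
          algebraMap ℂ L (cf f e) * P.x ^ e.1 * P.y ^ (e.2 - m) := by
        rw [hU, map_sum]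
        exact Finset.sum_congr rfl fun e _ => ev_monomial _ _ _ _ _
      rw [map_add, h1, mul_add, h2, ← mul_assoc (ev P.x P.y U), mul_inv_cancel₀ hUne, one_mul, h3,
        ev_eq_sum P.x P.y f, add_mul, Finset.sum_mul, Finset.sum_mul, Finset.sum_mul,
        ← Finset.sum_filter_add_sum_filter_not (bs f) (fun e => m ≤ e.2)]
      congr 1
      · refine Finset.sum_congr rfl fun e he => ?_
        rw [Finset.mem_filter] at he
        have h4 : P.y ^ e.2 = P.y ^ (e.2 - m) * (P.x * tt P) ^ m := by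
          rw [x_ttx, ← pow_add]
          congr 1
          omega
        rw [h4, mul_pow]
        ring
      · refine Finset.sum_congr (by ext e; simp) fun e he => ?_
        rw [Finset.mem_filter] at he
        have h5 := hm e (mem_bs.1 he.1)
        have h4 : P.x ^ (e.1 + e.2 - m) * P.x ^ m = P.x ^ e.1 * P.x ^ e.2 := by
          rw [← pow_add, ← pow_add]
          congr 1
          omega
        rw [← x_ttx, mul_pow]
        linear_combination (algebraMap ℂ L (cf f e) * tt P ^ e.2) * h4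
    have h6 : et P (X ^ m + r) = ev P.x P.y f * ((ev P.x P.y U)⁻¹ * (P.x ^ m)⁻¹) := by
      rw [← key]
      field_simp
    rw [h6]
    refine v.pos_mul_int (Or.inr (by rw [H98.adic_one hv]; norm_num)) (v.int_mul
      (inv_int hUne hUv) (inv_int (pow_ne_zero _ hxne) ?_))
    rw [v.map_pow hxne, x_val hv hx, mul_zero]

/-- The chart ring is, up to `x ^ m`, contained in the local ring modulo the curve. -/
theorem mu_ch_le {P : Coord L} {v : DVal L} {f : ℂ[X][X]} (hv : IsAdic P f v)
    (h0 : cf f (0, 0) = 0) (hx : ¬ f ∣ C X) {m : ℕ} (hm : OG m f) (hm' : cf f (0, m) ≠ 0)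
    (hm1 : 1 ≤ m) : mu (P.x ^ m) (lat v (ch P)) ≤ lat v P.loc := by
  obtain ⟨q, hq, hqd, hqv⟩ := exists_monic hv h0 hx hm hm'
  rintro _ ⟨w, hw, rfl⟩
  obtain ⟨z, hz, μ, hμ, rfl⟩ := mem_lat.1 hw
  obtain ⟨h, b, hb, rfl⟩ := hz
  obtain ⟨p, hp⟩ := exists_et P h
  have h1 := modByMonic_add_div p q
  set s := p %ₘ q with hs
  set d := p /ₘ q with hd
  have hxi : v.Int (P.x ^ m) := v.int_pow (int_x hv) m
  have hbi := inv_int (P.ne (ne_of_cf0 hb)) (unit_val hv h0 hb)
  -- the remainder
  have hs2 : P.x ^ m * et P s ∈ P.loc := by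
    have h2 : s.natDegree < m := by
      have h3 : q ≠ 1 := by
        intro h4
        rw [h4, natDegree_one] at hqd
        omega
      rw [← hqd]
      exact natDegree_modByMonic_lt p hq h3
    change P.x ^ m * eval₂ _ _ _ ∈ _
    rw [eval₂_eq_sum_range, Finset.mul_sum]
    refine Subalgebra.sum_mem _ fun i hi => ?_
    rw [Finset.mem_range] at hi
    have h3 : P.x ^ m * (algebraMap P.loc L (s.coeff i) * tt P ^ i) =
        (s.coeff i : L) * (P.x ^ (m - i) * P.y ^ i) := by
      rw [← x_ttx, mul_pow]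
      have h4 : P.x ^ m = P.x ^ (m - i) * P.x ^ i := by
        rw [← pow_add]; congr 1; omega
      rw [h4]
      change _ * ((s.coeff i : L) * _) = _
      ring
    rw [h3]
    exact Subalgebra.mul_mem _ (s.coeff i).2 (Subalgebra.mul_mem _
      (Subalgebra.pow_mem _ (x_mem P) _) (Subalgebra.pow_mem _ (y_mem P) _))
  refine mem_lat.2 ⟨(ev P.x P.y b)⁻¹ * (P.x ^ m * et P s), Subalgebra.mul_mem _
    (inv_mem_loc P hb) hs2,
    P.x ^ m * ((ev P.x P.y b)⁻¹ * (et P q * et P d)) + P.x ^ m * μ,
    v.pos_add (pos_mul hxi (pos_mul hbi (v.pos_mul_int hqv (int_ch hv h0 hx _ (et_mem P d)))))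
      (pos_mul hxi hμ), ?_⟩
  change _ = P.x ^ m * (ev P.x (tt P) h / ev P.x P.y b + μ)
  rw [← hp, ← h1, map_add, map_mul]
  have := P.ne (ne_of_cf0 hb)
  field_simp
  ring

end

end H73

end LCY
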