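import Pool.Agent.Helper73.LCY.NoeD

/-!
The count of Noether's formula at a point.
-/

open Polynomial

namespace LCY

namespace H73

open H62 H81

noncomputable section

variable {L : Type} [Field L] [Algebra ℂ L]

theorem not_dvd_CX {f : ℂ[X][X]} (hf : Irreducible f) {m : ℕ} (hm' : cf f (0, m) ≠ 0) :
    ¬ f ∣ C X := by
  rintro ⟨k, hk⟩
  have h1 : r0 f ≠ 0 := by
    intro h
    have := r0_coeff f m
    rw [h, coeff_zero] at this
    exact hm' this.symm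
  have h2 := congrArg r0 hk
  rw [r0_CX, r0_mul] at h2
  have h3 : r0 k = 0 := (mul_eq_zero.1 h2.symm).resolve_left h1
  obtain ⟨k', rfl⟩ := dvd_of_r0 h3
  have h4 : f * k' = 1 := by
    apply mul_left_cancel₀ H62.CX_ne
    rw [mul_one]
    conv_rhs => rw [hk]
    ring
  exact hf.not_isUnit (IsUnit.of_mul_eq_one _ h4)

/-- The factorisation of the restriction to the axis. -/
theorem r0_factor {f : ℂ[X][X]} {m : ℕ} (h : ∀ j < m, cf f (0, j) = 0) :
    ∃ u : ℂ[X], r0 f = X ^ m * u ∧ u.coeff 0 = cf f (0, m) := by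
  have h1 : X ^ m ∣ r0 f := by
    rw [X_pow_dvd_iff]
    intro j hj
    rw [r0_coeff, h j hj]
  obtain ⟨u, hu⟩ := h1
  refine ⟨u, hu, ?_⟩
  rw [← r0_coeff, hu]
  have := coeff_X_pow_mul u m 0
  rw [zero_add] at this
  exact this.symm

theorem pl_CX (P : Coord L) : pl P (C X) = ⟨P.x, x_mem P⟩ := Subtype.ext (ev_CX _ _)

/-- The intersection number with the first axis. -/
theorem axis {P : Coord L} {v : DVal L} {f : ℂ[X][X]} (hv : IsAdic P f v)
    (h0 : cf f (0, 0) = 0) (hx : ¬ f ∣ C X) {e : ℕ} {u : ℂ[X]} (hu : u.coeff 0 ≠ 0)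
    (hf : r0 f = X ^ e * u) :
    rd (mu P.x (lat v P.loc)) (lat v P.loc) = e ∧
      (1 ≤ e → rf (mu P.x (lat v P.loc)) (lat v P.loc)) := by
  have h1 : pid P.loc v ⊔ Ideal.span {(⟨P.x, x_mem P⟩ : P.loc)} = ixh P f := by
    rw [pid_eq hv h0, ← pl_CX]
    unfold ixh
    exact sup_comm _ _
  have h2 := loc0 P hu hf
  refine ⟨?_, fun he => ?_⟩
  · rw [rd_lat (int_loc hv h0) (x_mem P) P.x_ne (x_val hv hx), h1, h2]
  · rw [rf_lat (int_loc hv h0) (x_mem P) P.x_ne (x_val hv hx), h1]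
    exact FiniteDimensional.of_finrank_pos (K := ℂ) (V := P.loc ⧸ ixh P f) (by rw [h2]; omega)

/-- A power of `x` is a multiple of `g` modulo the curve. -/
theorem exists_pow {P : Coord L} {v : DVal L} {f g : ℂ[X][X]} (hv : IsAdic P f v)
    (h0 : cf f (0, 0) = 0) (hfg : ¬ f ∣ g) :
    ∃ N : ℕ, ∃ b ∈ P.loc, v.Pos (P.x ^ N - ev P.x P.y g * b) := by
  obtain ⟨r, A, B, hr, h⟩ := elim_y hv.1.prime hfg
  obtain ⟨N, u, hu, hN⟩ := exists_factor hr
  have hu' : cf (C u) (0, 0) ≠ 0 := by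
    unfold cf
    rw [coeff_C_zero]
    exact hu
  have hune := P.ne (ne_of_cf0 hu')
  refine ⟨N, (ev P.x P.y (C u))⁻¹ * ev P.x P.y B,
    Subalgebra.mul_mem _ (inv_mem_loc P hu') (P.ev_mem_loc B), ?_⟩
  have h1 : ev P.x P.y (C r) = P.x ^ N * ev P.x P.y (C u) := by
    rw [hN, C_mul, map_mul, C_pow, map_pow, ev_CX]
  have h2 : P.x ^ N - ev P.x P.y g * ((ev P.x P.y (C u))⁻¹ * ev P.x P.y B) =
      ev P.x P.y f * (ev P.x P.y A * (ev P.x P.y (C u))⁻¹) := by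
    have h3 := congrArg (ev P.x P.y) h
    rw [h1, map_add, map_mul, map_mul] at h3
    field_simp
    linear_combination h3
  rw [h2]
  exact v.pos_mul_int (Or.inr (by rw [H98.adic_one hv]; norm_num))
    (v.int_mul (H98.adic_int hv A) (inv_int hune (unit_val hv h0 hu')))

/-- The multiple of the lattice by a power of `x` is contained in the multiple by `g`. -/
theorem mu_pow_le_mu {P : Coord L} {v : DVal L} {f g : ℂ[X][X]} (hv : IsAdic P f v)
    (h0 : cf f (0, 0) = 0) (hfg : ¬ f ∣ g) (hg : g ≠ 0) :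
    ∃ N : ℕ, mu (P.x ^ N) (lat v P.loc) ≤ mu (ev P.x P.y g) (lat v P.loc) := by
  obtain ⟨N, b, hb, hN⟩ := exists_pow hv h0 hfg
  refine ⟨N, ?_⟩
  rintro _ ⟨w, hw, rfl⟩
  obtain ⟨r, hr, μ, hμ, rfl⟩ := mem_lat.1 hw
  rw [mem_mu_lat (P.ne hg) (H98.adic_zero hv hfg)]
  refine ⟨b * r, Subalgebra.mul_mem _ hb hr, ?_⟩
  change v.Pos (P.x ^ N * (r + μ) - ev P.x P.y g * (b * r))
  have : P.x ^ N * (r + μ) - ev P.x P.y g * (b * r) =
      (P.x ^ N - ev P.x P.y g * b) * r + P.x ^ N * μ := by ring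
  rw [this]
  exact v.pos_add (v.pos_mul_int hN (int_loc hv h0 r hr)) (pos_mul (v.int_pow (int_x hv) N) hμ)

/-- The quotient by the ideals of two curves without common component is finite. -/
theorem fin_quot {P : Coord L} {v : DVal L} {f g : ℂ[X][X]} (hv : IsAdic P f v)
    (h0 : cf f (0, 0) = 0) (hx : ¬ f ∣ C X) (hfg : ¬ f ∣ g) (hg : g ≠ 0) :
    Module.Finite ℂ (P.loc ⧸ (pid P.loc v ⊔ Ideal.span {pl P g})) := by
  obtain ⟨N, hN⟩ := mu_pow_le_mu hv h0 hfg hg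
  have h1 : r0 f ≠ 0 := fun h => hx (by
    obtain ⟨k, hk⟩ := dvd_of_r0 h
    have h2 : IsUnit k := by
      rcases hv.1.isUnit_or_isUnit hk with h3 | h3
      · exact absurd h3 prime_CX.not_isUnit
      · exact h3
    obtain ⟨k', hk'⟩ := h2.exists_right_inv
    exact ⟨k', by rw [hk, mul_assoc, hk', mul_one]⟩)
  obtain ⟨e, u, hu, hf⟩ := exists_factor h1
  have he : 1 ≤ e := by
    by_contra h2
    have h3 : e = 0 := by omega
    rw [h3, pow_zero, one_mul] at hf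
    rw [← hf, r0_coeff] at hu
    exact hu h0
  have h2 := (axis hv h0 hx hu hf).2 he
  have h3 := (rd_pow P.x_ne (mu_lat_le (x_mem P) (int_x hv)) h2 N).1
  have h4 := rf_right hN h3
  exact (rf_lat (int_loc hv h0) (P.ev_mem_loc g) (P.ne hg) (H98.adic_zero hv hfg)).1 h4

/-- **The count.** -/
theorem noe_count {P : Coord L} {v : DVal L} {f g : ℂ[X][X]} (hv : IsAdic P f v)
    (h0 : cf f (0, 0) = 0) (hfg : ¬ f ∣ g) (hg : g ≠ 0) (hm' : cf f (0, ordn f) ≠ 0) :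
    rf (mu (ev P.x (tt P) (bq (some 0) (ordn g) g)) (lat v (ch P))) (lat v (ch P)) ∧
    Module.finrank ℂ (P.loc ⧸ (pid P.loc v ⊔ Ideal.span {pl P g})) = ordn g * ordn f +
      rd (mu (ev P.x (tt P) (bq (some 0) (ordn g) g)) (lat v (ch P))) (lat v (ch P)) := by
  have hf0 := hv.1.ne_zero
  have hx := not_dvd_CX hv.1 hm'
  have hmf := H62.oe_ordn hf0
  have hmg := H62.oe_ordn hg
  have hm1 : 1 ≤ ordn f := (H98.ordn_pos_iff hf0).2 h0
  have hxne := P.x_ne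
  have hxv := x_val hv hx
  set g₁ := ev P.x (tt P) (bq (some 0) (ordn g) g) with hg₁
  have hgg : P.x ^ ordn g * g₁ = ev P.x P.y g := by
    rw [← evt_bl, bl_eq hmg.1, map_mul, map_pow, ev_CX]
  have hg₁ne : g₁ ≠ 0 := by
    intro h
    rw [h, mul_zero] at hgg
    exact P.ne hg hgg.symm
  have hg₁v : v.v g₁ = 0 := by
    have h1 := H98.adic_zero hv hfg
    rw [← hgg, v.map_mul _ _ (pow_ne_zero _ hxne) hg₁ne, v.map_pow hxne, hxv, mul_zero,
      zero_add] at h1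
    exact h1
  obtain ⟨u, hu, hu0⟩ := r0_factor (f := f) (m := ordn f) (fun j hj => by
    by_contra h
    have := hmf.1 _ h
    simp only [zero_add] at this
    omega)
  have hu' : u.coeff 0 ≠ 0 := by rw [hu0]; exact hm'
  obtain ⟨h1, h2⟩ := axis hv h0 hx hu' hu
  obtain ⟨N, hN⟩ := mu_pow_le_mu hv h0 hfg hg
  have hk := mu_ch_le hv h0 hx hmf.1 hm' hm1
  have hc := count (A := lat v P.loc) (B := lat v (ch P)) hxne hg₁ne (lat_mono (loc_le_ch P))
    (mu_lat_le (x_mem P) (int_x hv)) (mu_lat_le (x_mem_ch P) (int_x hv)) hk (h2 hm1)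
    (mu_lat_le (evt_mem P _) (Or.inr hg₁v.ge)) (n := ordn g)
    (by rw [hgg]; exact mu_lat_le (P.ev_mem_loc g) (H98.adic_int hv g))
    (N := N) (by rw [hgg]; exact hN)
  obtain ⟨-, hc1, -, -, hc2⟩ := hc
  refine ⟨hc1, ?_⟩
  rw [hgg, rd_lat (int_loc hv h0) (P.ev_mem_loc g) (P.ne hg) (H98.adic_zero hv hfg), h1] at hc2
  exact hc2

end

end H73

end LCY
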