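import Pool.Agent.Helper73.LCY.NoeE
import Pool.Agent.Helper73.LCY.LocSum
import Pool.Agent.Helper98.LCY.LocG

/-!
The quotient of the chart ring is the sum of the quotients at the points of the blow-up.
-/

open Polynomial

namespace LCY

namespace H73

open H62 H81

noncomputable section

variable {L : Type} [Field L] [Algebra ℂ L]

/-- The strict transform at a point of the blow-up through which the curve passes. -/
theorem strict_of {P : Coord L} {o : Option ℂ} {v : DVal L} {g : ℂ[X][X]}
    (hg : IsAdic P g v) (h0 : cf g (0, 0) = 0) (h' : Through (P.st o).loc v) :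
    IsAdic (P.st o) (bq o (ordn g) g) v ∧ cf (bq o (ordn g) g) (0, 0) = 0 := by
  have h : Through P.loc v := (st_A6 L P v).2 ⟨g, hg, h0⟩
  obtain ⟨k, hk, hk0⟩ := (st_A6 L (P.st o) v).1 h'
  have hnd : ¬ g ∣ H98.eP o := by
    intro hd
    have h1 : 0 < v.v (P.st o).x := by
      rw [← H98.ev_eP]
      exact (H98.adic_pos_iff hg (H98.eP_ne o)).2 hd
    rw [← ev_CX (P.st o).x (P.st o).y, H98.adic_pos_iff hk H62.CX_ne] at h1
    have h2 := H98.adic_ord (H98.adic_assoc hk (hk.1.associated_of_dvd prime_CX.irreducible h1))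
    have h3 : Centred P.loc v := by
      rw [H98.centred_iff, h2 _ P.x_ne, h2 _ P.y_ne, H62.ord_x, H62.ord_y]
      exact ⟨one_pos, one_pos⟩
    exact H98.not_centred_of_through h h3
  have hs := H98.strict_adic hg hnd
  have hass : Associated k (bq o (ordn g) g) := by
    apply hk.1.associated_of_dvd hs.1
    rw [← H98.adic_pos_iff hk hs.1.ne_zero, H98.adic_one hs]
    exact one_pos
  refine ⟨hs, ?_⟩
  obtain ⟨u, hu⟩ := hass
  rw [← hu, H98.cf_mul0, hk0, zero_mul]

/-! ### The residue homomorphism of a point -/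

/-- The value at the point. -/
def rs (P : Coord L) (z : P.loc) : ℂ :=
  cf (Classical.choose (loc_frac z)) (0, 0) /
    cf (Classical.choose (Classical.choose_spec (loc_frac z))) (0, 0)

theorem rs_eq {P : Coord L} {z : P.loc} {f g : ℂ[X][X]} (hg : cf g (0, 0) ≠ 0)
    (h : z * pl P g = pl P f) : rs P z = cf f (0, 0) / cf g (0, 0) := by
  unfold rs
  obtain ⟨h1, h2⟩ := Classical.choose_spec (Classical.choose_spec (loc_frac z))
  set a := Classical.choose (loc_frac z)
  set b := Classical.choose (Classical.choose_spec (loc_frac z))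
  have h3 : pl P (a * g) = pl P (f * b) := by
    rw [pl_mul, pl_mul, ← h2, ← h]
    ring
  have h4 := congrArg (fun q => cf q (0, 0)) (pl_inj h3)
  simp only [cf0_mul] at h4
  rw [div_eq_div_iff h1 hg]
  exact h4

theorem cf0_add (f g : ℂ[X][X]) : cf (f + g) (0, 0) = cf f (0, 0) + cf g (0, 0) := by
  simp [cf]

/-- The residue homomorphism. -/
def resP (P : Coord L) : P.loc →ₐ[ℂ] ℂ where
  toFun := rs P
  map_one' := by
    rw [rs_eq (f := 1) (g := 1) (by rw [cf0_one]; exact one_ne_zero) (one_mul _), div_self]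
    rw [cf0_one]; exact one_ne_zero
  map_mul' := by
    intro a b
    obtain ⟨f, g, hg, h⟩ := loc_frac a
    obtain ⟨f', g', hg', h'⟩ := loc_frac b
    rw [rs_eq hg h, rs_eq hg' h', rs_eq (f := f * f') (g := g * g')
      (by rw [cf0_mul]; exact mul_ne_zero hg hg')
      (by rw [pl_mul, pl_mul, ← h, ← h']; ring), cf0_mul, cf0_mul, div_mul_div_comm]
  map_zero' := by
    rw [rs_eq (f := 0) (g := 1) (by rw [cf0_one]; exact one_ne_zero)]
    · simp [cf]
    · rw [zero_mul]; exact (Subtype.ext (map_zero _)).symm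
  map_add' := by
    intro a b
    obtain ⟨f, g, hg, h⟩ := loc_frac a
    obtain ⟨f', g', hg', h'⟩ := loc_frac b
    rw [rs_eq hg h, rs_eq hg' h', rs_eq (f := f * g' + f' * g) (g := g * g')
      (by rw [cf0_mul]; exact mul_ne_zero hg hg')
      (by rw [pl_mul, pl_add, pl_mul, pl_mul, ← h, ← h']; ring), cf0_mul, cf0_add, cf0_mul,
      cf0_mul, div_add_div _ _ hg hg']
    ring
  commutes' := by
    intro c
    rw [rs_eq (f := C (C c)) (g := 1) (by rw [cf0_one]; exact one_ne_zero)]
    · simp [cf]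
    · apply Subtype.ext
      change algebraMap ℂ L c * ev P.x P.y 1 = ev P.x P.y (C (C c))
      rw [map_one, mul_one, ev_CC]

theorem resP_eq {P : Coord L} {z : P.loc} {f g : ℂ[X][X]} (hg : cf g (0, 0) ≠ 0)
    (h : z * pl P g = pl P f) : resP P z = cf f (0, 0) / cf g (0, 0) := rs_eq hg h

theorem resP_pl (P : Coord L) (f : ℂ[X][X]) : resP P (pl P f) = cf f (0, 0) := by
  rw [resP_eq (f := f) (g := 1) (by rw [cf0_one]; exact one_ne_zero)]
  · rw [cf0_one, div_one]
  · rw [← pl_mul, mul_one]

theorem unit_of_resP {P : Coord L} {z : P.loc} (h : resP P z ≠ 0) : IsUnit z := by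
  obtain ⟨f, g, hg, h1⟩ := loc_frac z
  rw [resP_eq hg h1] at h
  have hf : cf f (0, 0) ≠ 0 := fun h0 => h (by rw [h0, zero_div])
  have h2 := pl_unit (P := P) hf
  rw [← h1] at h2
  exact isUnit_of_mul_isUnit_left h2

/-- Every homomorphism from the local ring is the residue homomorphism. -/
theorem hom_eq_resP {P : Coord L} (φ : P.loc →ₐ[ℂ] ℂ) (z : P.loc) : φ z = resP P z := by
  have h0 : ∀ z, resP P z = 0 → φ z = 0 := by
    intro z hz
    by_contra hne
    have h1 : resP P (z - algebraMap ℂ P.loc (φ z)) ≠ 0 := by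
      rw [map_sub, hz, AlgHom.commutes, Algebra.algebraMap_self, RingHom.id_apply, zero_sub]
      exact neg_ne_zero.2 hne
    have h2 := (unit_of_resP h1).map φ
    rw [map_sub, AlgHom.commutes, Algebra.algebraMap_self, RingHom.id_apply, sub_self] at h2
    exact not_isUnit_zero h2
  have h1 := h0 (z - algebraMap ℂ P.loc (resP P z)) (by
    rw [map_sub, AlgHom.commutes, Algebra.algebraMap_self, RingHom.id_apply, sub_self])
  rw [map_sub, AlgHom.commutes, Algebra.algebraMap_self, RingHom.id_apply, sub_eq_zero] at h1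
  exact h1

/-! ### Homomorphisms of the chart ring -/

/-- The element of the chart ring defined by a polynomial. -/
def cl (P : Coord L) (h : ℂ[X][X]) : ch P := ⟨ev P.x (tt P) h, evt_mem P h⟩

/-- The inclusion of the local ring in the chart ring. -/
def ic (P : Coord L) : P.loc →ₐ[ℂ] ch P := Subalgebra.inclusion (loc_le_ch P)

theorem ch_frac {P : Coord L} (z : ch P) : ∃ h b : ℂ[X][X], cf b (0, 0) ≠ 0 ∧
    z * ic P (pl P b) = cl P h := by
  obtain ⟨z, h, b, hb, rfl⟩ := z
  refine ⟨h, b, hb, Subtype.ext ?_⟩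
  change ev P.x (tt P) h / ev P.x P.y b * ev P.x P.y b = ev P.x (tt P) h
  exact div_mul_cancel₀ _ (P.ne (ne_of_cf0 hb))

theorem hom_cl {P : Coord L} (χ : ch P →ₐ[ℂ] ℂ) (h : ℂ[X][X]) :
    χ (cl P h) = (r0 h).eval (χ ⟨tt P, tt_mem P⟩) := by
  let c := χ ⟨tt P, tt_mem P⟩
  let F : ℂ[X][X] →+* ℂ := (χ : ch P →+* ℂ).comp
    (RingHom.codRestrict (ev P.x (tt P)) (ch P) (evt_mem P))
  let G : ℂ[X][X] →+* ℂ := (evalRingHom c).comp (mapRingHom (evalRingHom (0 : ℂ)))
  have hx : χ (ic P (pl P (C X))) = 0 := by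
    have := hom_eq_resP (χ.comp (ic P)) (pl P (C X))
    rw [resP_pl] at this
    rw [cf0_CX] at this
    exact this
  have h1 : F = G := by
    refine Polynomial.ringHom_ext ?_ ?_
    · intro p
      have h2 : (F.comp C) = (G.comp C) := by
        refine Polynomial.ringHom_ext ?_ ?_
        · intro a
          change χ (cl P (C (C a))) = eval c (map (evalRingHom 0) (C (C a)))
          have : cl P (C (C a)) = algebraMap ℂ (ch P) a := Subtype.ext (ev_CC _ _ _)
          rw [this, AlgHom.commutes]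
          simp
        · change χ (cl P (C X)) = eval c (map (evalRingHom 0) (C X))
          have : cl P (C X) = ic P (pl P (C X)) := by
            apply Subtype.ext
            change ev P.x (tt P) (C X) = ev P.x P.y (C X)
            rw [ev_CX, ev_CX]
          rw [this, hx]
          simp
      exact RingHom.congr_fun h2 p
    · change χ (cl P X) = eval c (map (evalRingHom 0) X)
      have : cl P X = ⟨tt P, tt_mem P⟩ := Subtype.ext (ev_X _ _)
      rw [this]
      simp [c]
  exact RingHom.congr_fun h1 h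

/-- A homomorphism of the chart ring is determined by its value at `t`. -/
theorem hom_ext {P : Coord L} {χ χ' : ch P →ₐ[ℂ] ℂ}
    (h : χ ⟨tt P, tt_mem P⟩ = χ' ⟨tt P, tt_mem P⟩) : χ = χ' := by
  ext z
  obtain ⟨f, b, hb, h1⟩ := ch_frac z
  have h2 := congrArg χ h1
  have h3 := congrArg χ' h1
  rw [map_mul, hom_cl] at h2 h3
  have h4 : χ (ic P (pl P b)) = cf b (0, 0) := by
    have := hom_eq_resP (χ.comp (ic P)) (pl P b)
    rwa [resP_pl] at this
  have h5 : χ' (ic P (pl P b)) = cf b (0, 0) := by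
    have := hom_eq_resP (χ'.comp (ic P)) (pl P b)
    rwa [resP_pl] at this
  rw [h4] at h2
  rw [h5] at h3
  rw [h] at h2
  exact mul_right_cancel₀ hb (h2.trans h3.symm)

/-- The homomorphism of the point `c`. -/
def xc (P : Coord L) (c : ℂ) : ch P →ₐ[ℂ] ℂ :=
  (resP (P.st (some c))).comp (Subalgebra.inclusion (ch_le P c))

theorem xc_tt (P : Coord L) (c : ℂ) : xc P c ⟨tt P, tt_mem P⟩ = c := by
  have h1 : Subalgebra.inclusion (ch_le P c) ⟨tt P, tt_mem P⟩ =
      pl (P.st (some c)) (X + C (C c)) := by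
    apply Subtype.ext
    change tt P = ev _ _ _
    rw [map_add, ev_X, ev_CC, stc_y]
    ring
  change resP _ (Subalgebra.inclusion (ch_le P c) ⟨tt P, tt_mem P⟩) = c
  rw [h1, resP_pl, cf0_add]
  simp [cf]

end

end H73

end LCY
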