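import Pool.Agent.Helper73.LCY.NoeF

/-!
Noether's formula for coordinates such that the first axis is transversal to the curve.
-/

open Polynomial

namespace LCY

namespace H73

open H62 H81

noncomputable section

variable {L : Type} [Field L] [Algebra ℂ L]

theorem not_dvd_CX' {f : ℂ[X][X]} (hf : Irreducible f) (h1 : r0 f ≠ 0) : ¬ f ∣ C X := by
  intro h
  obtain ⟨m, hm⟩ : ∃ m, (r0 f).coeff m ≠ 0 := by
    by_contra hcon
    push Not at hcon
    exact h1 (Polynomial.ext hcon)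
  rw [r0_coeff] at hm
  exact not_dvd_CX hf hm h

/-- The strict transforms of a polynomial in the charts. -/
theorem ev_strict (P : Coord L) {g : ℂ[X][X]} {n : ℕ} (hn : OG n g) (c : ℂ) :
    ev (P.st (some c)).x (P.st (some c)).y (bq (some c) n g) =
      ev P.x (tt P) (bq (some 0) n g) := by
  have h1 := P.ev_st (some c) g
  rw [bl_eq hn, map_mul, map_pow, ev_CX, stc_x] at h1
  have h2 := evt_bl P g
  rw [bl_eq hn, map_mul, map_pow, ev_CX, ← h1] at h2
  have h3 := (mul_left_cancel₀ (pow_ne_zero n P.x_ne) h2).symm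
  rw [← stc_x P c] at h3
  rw [h3, stc_x]

theorem cf_strict {g : ℂ[X][X]} {n : ℕ} (hn : OG n g) (c : ℂ) :
    cf (bq (some c) n g) (0, 0) = (lp n g).eval c := by
  rw [← r0_coeff, r0_bq_some hn, coeff_zero_eq_eval_zero, eval_comp]
  simp

/-- The common directions of two curves. -/
def ZZ (f g : ℂ[X][X]) : Finset ℂ := by
  classical
  exact (lp (ordn f) f).roots.toFinset.filter (fun c => (lp (ordn g) g).eval c = 0)

theorem mem_ZZ {f g : ℂ[X][X]} (hf : f ≠ 0) (hg : g ≠ 0) {c : ℂ} :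
    c ∈ ZZ f g ↔ cf (bq (some c) (ordn f) f) (0, 0) = 0 ∧
      cf (bq (some c) (ordn g) g) (0, 0) = 0 := by
  unfold ZZ
  rw [Finset.mem_filter, Multiset.mem_toFinset, mem_roots (lp_ne (H62.oe_ordn hf)), IsRoot.def,
    cf_strict (H62.oe_ordn hf).1, cf_strict (H62.oe_ordn hg).1]

/-- **The local sum.** -/
theorem chart_sum {P : Coord L} {v w : DVal L} {f g : ℂ[X][X]} (hv : IsAdic P f v)
    (h0 : cf f (0, 0) = 0) (hw : IsAdic P g w) (hg0 : cf g (0, 0) = 0) (hfg : ¬ f ∣ g)
    (hm' : cf f (0, ordn f) ≠ 0) :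
    rd (mu (ev P.x (tt P) (bq (some 0) (ordn g) g)) (lat v (ch P))) (lat v (ch P)) =
      ∑ c ∈ ZZ f g, Module.finrank ℂ ((P.st (some c)).loc ⧸
        (pid (P.st (some c)).loc v ⊔ pid (P.st (some c)).loc w)) ∧
    ∀ c ∈ ZZ f g, Through (P.st (some c)).loc v ∧ Through (P.st (some c)).loc w ∧
      1 ≤ Module.finrank ℂ ((P.st (some c)).loc ⧸
        (pid (P.st (some c)).loc v ⊔ pid (P.st (some c)).loc w)) := by
  classical
  have hf := hv.1.ne_zero
  have hg := hw.1.ne_zero
  have hx := not_dvd_CX hv.1 hm'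
  have hof := H62.oe_ordn hf
  have hog := H62.oe_ordn hg
  have hxne := P.x_ne
  set g₁ := ev P.x (tt P) (bq (some 0) (ordn g) g) with hg₁
  have hgg : P.x ^ ordn g * g₁ = ev P.x P.y g := by
    rw [← evt_bl, bl_eq hog.1, map_mul, map_pow, ev_CX]
  have hg₁ne : g₁ ≠ 0 := by
    intro h
    rw [h, mul_zero] at hgg
    exact P.ne hg hgg.symm
  have hg₁v : v.v g₁ = 0 := by
    have h1 := H98.adic_zero hv hfg
    rw [← hgg, v.map_mul _ _ (pow_ne_zero _ hxne) hg₁ne, v.map_pow hxne, x_val hv hx, mul_zero,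
      zero_add] at h1
    exact h1
  -- the strict transforms at the points of `ZZ`
  have hstr : ∀ c ∈ ZZ f g, IsAdic (P.st (some c)) (bq (some c) (ordn f) f) v ∧
      IsAdic (P.st (some c)) (bq (some c) (ordn g) g) w := by
    intro c hc
    obtain ⟨h1, h2⟩ := (mem_ZZ hf hg).1 hc
    exact ⟨H98.strict_adic hv (H98.not_dvd_eP hv.1 h1 h0),
      H98.strict_adic hw (H98.not_dvd_eP hw.1 h2 hg0)⟩
  have hnsame : ¬ v.Same w := by
    intro hs
    apply hfg
    rw [← H98.adic_pos_iff hv hg, hs _ (P.ne hg), H98.adic_one hw]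
    exact one_pos
  -- finiteness
  obtain ⟨hrf, -⟩ := noe_count hv h0 hfg hg hm'
  rw [← hg₁] at hrf
  have hint := int_ch hv h0 hx
  have hg₁m : g₁ ∈ ch P := evt_mem P _
  have hfin := (rf_lat hint hg₁m hg₁ne hg₁v).1 hrf
  set I : Ideal (ch P) := pid (ch P) v ⊔ Ideal.span {(⟨g₁, hg₁m⟩ : ch P)} with hI
  -- the localisations
  let ι := {c // c ∈ ZZ f g}
  let S : ι → Type := fun c => (P.st (some (c : ℂ))).loc
  let _ : ∀ i : ι, CommRing (S i) := fun i => inferInstanceAs (CommRing (P.st (some (i : ℂ))).loc)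
  let _ : ∀ i : ι, Algebra ℂ (S i) := fun i =>
    inferInstanceAs (Algebra ℂ (P.st (some (i : ℂ))).loc)
  let _ : ∀ i : ι, Algebra (ch P) (S i) := fun i =>
    (Subalgebra.inclusion (ch_le P (i : ℂ))).toAlgebra
  have _ : ∀ i : ι, IsScalarTower ℂ (ch P) (S i) := fun i =>
    IsScalarTower.of_algebraMap_eq fun c => rfl
  -- the ideals of the two curves at the points
  have hpv : ∀ c ∈ ZZ f g, pid (P.st (some c)).loc v =
      Ideal.span {pl (P.st (some c)) (bq (some c) (ordn f) f)} := fun c hc =>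
    pid_eq (hstr c hc).1 ((mem_ZZ hf hg).1 hc).1
  have hpw : ∀ c ∈ ZZ f g, pid (P.st (some c)).loc w =
      Ideal.span {pl (P.st (some c)) (bq (some c) (ordn g) g)} := fun c hc =>
    pid_eq (hstr c hc).2 ((mem_ZZ hf hg).1 hc).2
  have hf₁pos : v.Pos (ev P.x (tt P) (bq (some 0) (ordn f) f)) := by
    have h1 : P.x ^ ordn f * ev P.x (tt P) (bq (some 0) (ordn f) f) = ev P.x P.y f := by
      rw [← evt_bl, bl_eq hof.1, map_mul, map_pow, ev_CX]
    have h2 : ev P.x (tt P) (bq (some 0) (ordn f) f) = ev P.x P.y f * (P.x ^ ordn f)⁻¹ := by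
      rw [← h1]
      field_simp
    rw [h2]
    refine v.pos_mul_int (Or.inr (by rw [H98.adic_one hv]; norm_num))
      (inv_int (pow_ne_zero _ hxne) ?_)
    rw [v.map_pow hxne, x_val hv hx, mul_zero]
  have hmap : ∀ i : ι, I.map (algebraMap (ch P) (S i)) =
      (pid (P.st (some (i : ℂ))).loc v ⊔ pid (P.st (some (i : ℂ))).loc w :
        Ideal (P.st (some (i : ℂ))).loc) := by
    rintro ⟨c, hc⟩
    rw [hI, Ideal.map_sup]
    congr 1
    · apply le_antisymm
      · rw [Ideal.map_le_iff_le_comap]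
        intro z hz
        rw [Ideal.mem_comap]
        rw [mem_pid hint] at hz
        exact (mem_pid (int_loc (hstr c hc).1 ((mem_ZZ hf hg).1 hc).1)).2 hz
      · rw [hpv c hc, Ideal.span_le, Set.singleton_subset_iff, SetLike.mem_coe]
        have h1 : pl (P.st (some c)) (bq (some c) (ordn f) f) =
            algebraMap (ch P) (S ⟨c, hc⟩) (cl P (bq (some 0) (ordn f) f)) :=
          Subtype.ext (ev_strict P hof.1 c)
        rw [h1]
        exact Ideal.mem_map_of_mem _ ((mem_pid hint).2 hf₁pos)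
    · rw [Ideal.map_span, Set.image_singleton, hpw c hc]
      have h1 : algebraMap (ch P) (S ⟨c, hc⟩) (⟨g₁, hg₁m⟩ : ch P) =
          pl (P.st (some c)) (bq (some c) (ordn g) g) :=
        Subtype.ext (ev_strict P hog.1 c).symm
      rw [h1]
  have hls := locsum (ι := ι) I S (fun i => xc P (i : ℂ)) ?_ ?_ ?_ ?_ ?_ ?_
  · constructor
    · rw [rd_lat hint hg₁m hg₁ne hg₁v, ← hI, hls, ← Finset.sum_coe_sort (ZZ f g)]
      refine Finset.sum_congr rfl fun i _ => ?_
      rw [hmap i]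
    · intro c hc
      obtain ⟨h1, h2⟩ := (mem_ZZ hf hg).1 hc
      obtain ⟨h3, h4⟩ := hstr c hc
      refine ⟨(st_A6 L _ v).2 ⟨_, h3, h1⟩, (st_A6 L _ w).2 ⟨_, h4, h2⟩, ?_⟩
      have h5 : ¬ bq (some c) (ordn f) f ∣ bq (some c) (ordn g) g := by
        intro h
        apply hnsame
        exact H98.adic_same h3 (H98.adic_assoc h4 (h3.1.associated_of_dvd h4.1 h).symm)
      have h6 := fin_quot h3 h1 (not_dvd_CX' h3.1 (r0_bq_ne hof (some c)).1) h5 h4.1.ne_zero
      rw [← hpw c hc] at h6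
      have h7 : Nontrivial ((P.st (some c)).loc ⧸
          (pid (P.st (some c)).loc v ⊔ pid (P.st (some c)).loc w)) := by
        rw [Ideal.Quotient.nontrivial_iff]
        intro htop
        have h8 : pid (P.st (some c)).loc v ⊔ pid (P.st (some c)).loc w ≤
            RingHom.ker (resP (P.st (some c))) := by
          rw [hpv c hc, hpw c hc, sup_le_iff, Ideal.span_le, Ideal.span_le,
            Set.singleton_subset_iff, Set.singleton_subset_iff]
          exact ⟨(resP_pl _ _).trans h1, (resP_pl _ _).trans h2⟩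
        rw [htop, top_le_iff, Ideal.eq_top_iff_one, RingHom.mem_ker] at h8
        have h9 : resP (P.st (some c)) 1 = 0 := h8
        rw [map_one] at h9
        exact one_ne_zero h9
      exact Module.finrank_pos
  · -- injectivity
    intro i j hij
    have h1 := congrArg (fun χ : ch P →ₐ[ℂ] ℂ => χ ⟨tt P, tt_mem P⟩) hij
    simp only [xc_tt] at h1
    exact Subtype.ext h1
  · -- the homomorphisms kill the ideal
    rintro ⟨c, hc⟩ b hb
    obtain ⟨h1, h2⟩ := (mem_ZZ hf hg).1 hc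
    have h3 : Subalgebra.inclusion (ch_le P c) b ∈ I.map (algebraMap (ch P) (S ⟨c, hc⟩)) :=
      Ideal.mem_map_of_mem _ hb
    rw [hmap ⟨c, hc⟩] at h3
    have h8 : pid (P.st (some c)).loc v ⊔ pid (P.st (some c)).loc w ≤
        RingHom.ker (resP (P.st (some c))) := by
      rw [hpv c hc, hpw c hc, sup_le_iff, Ideal.span_le, Ideal.span_le,
        Set.singleton_subset_iff, Set.singleton_subset_iff]
      exact ⟨(resP_pl _ _).trans h1, (resP_pl _ _).trans h2⟩
    exact h8 h3
  · -- all homomorphisms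
    intro χ' hχ'
    have h1 : cl P (bq (some 0) (ordn f) f) ∈ I :=
      Ideal.mem_sup_left ((mem_pid hint).2 hf₁pos)
    have h2 : cl P (bq (some 0) (ordn g) g) ∈ I :=
      Ideal.mem_sup_right (Ideal.subset_span rfl)
    have h3 := hχ' _ h1
    have h4 := hχ' _ h2
    rw [hom_cl, r0_bq_some hof.1, C_0, add_zero, comp_X] at h3
    rw [hom_cl, r0_bq_some hog.1, C_0, add_zero, comp_X] at h4
    have h5 : χ' ⟨tt P, tt_mem P⟩ ∈ ZZ f g := by
      rw [mem_ZZ hf hg, cf_strict hof.1, cf_strict hog.1]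
      exact ⟨h3, h4⟩
    exact ⟨⟨_, h5⟩, hom_ext (by rw [xc_tt])⟩
  · -- units
    rintro ⟨c, hc⟩ b hb
    exact unit_of_resP hb
  · -- fractions
    rintro ⟨c, hc⟩ s
    obtain ⟨a, b, hb, h⟩ := exists_frac_ch P c s.2
    refine ⟨⟨_, evc_mem P c a⟩, ⟨_, evc_mem P c b⟩, ?_, Subtype.ext h⟩
    change resP (P.st (some c)) (pl (P.st (some c)) b) ≠ 0
    rw [resP_pl]
    exact hb
  · -- injectivity of the localisation
    rintro ⟨c, hc⟩ a ha
    refine ⟨1, by rw [map_one]; exact one_ne_zero, ?_⟩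
    rw [one_mul]
    have h1 : (a : L) = 0 := congrArg Subtype.val ha
    exact Subtype.ext h1

end

end H73

end LCY
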