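import Pool.Agent.Helper27.LCY.Abs

/-!
Elementary facts on `DVal` and its valuation ring.
-/

open Polynomial

namespace LCY

namespace H73

variable {L : Type} [Field L] [Algebra ℂ L]

theorem v_one (v : DVal L) : v.v 1 = 0 := by
  have h := v.map_mul 1 1 one_ne_zero one_ne_zero
  rw [one_mul] at h; linarith

theorem v_inv (v : DVal L) {a : L} (ha : a ≠ 0) : v.v a⁻¹ = - v.v a := by
  have h := v.map_mul a a⁻¹ ha (inv_ne_zero ha)
  rw [mul_inv_cancel₀ ha, v_one] at h; linarith

theorem v_div (v : DVal L) {a b : L} (ha : a ≠ 0) (hb : b ≠ 0) : v.v (a / b) = v.v a - v.v b := by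
  rw [div_eq_mul_inv, v.map_mul _ _ ha (inv_ne_zero hb), v_inv v hb]; ring

theorem v_pow (v : DVal L) {a : L} (ha : a ≠ 0) (n : ℕ) : v.v (a ^ n) = n * v.v a := by
  induction n with
  | zero => simp [v_one]
  | succ n ih => rw [pow_succ, v.map_mul _ _ (pow_ne_zero n ha) ha, ih]; push_cast; ring

theorem v_neg_one (v : DVal L) : v.v (-1) = 0 := by
  have h := v.map_mul (-1) (-1) (neg_ne_zero.2 one_ne_zero) (neg_ne_zero.2 one_ne_zero)
  rw [neg_mul_neg, one_mul, v_one] at h; linarith

theorem v_neg (v : DVal L) {a : L} (ha : a ≠ 0) : v.v (-a) = v.v a := by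
  have h := v.map_mul (-1) a (neg_ne_zero.2 one_ne_zero) ha
  rw [neg_one_mul, v_neg_one, zero_add] at h; exact h

theorem int_zero (v : DVal L) : v.Int 0 := Or.inl rfl

theorem int_one (v : DVal L) : v.Int 1 := Or.inr (by rw [v_one])

theorem int_const (v : DVal L) (c : ℂ) : v.Int (algebraMap ℂ L c) := by
  by_cases hc : c = 0
  · left; rw [hc, map_zero]
  · right; rw [v.map_const c hc]

theorem int_mul (v : DVal L) {a b : L} (ha : v.Int a) (hb : v.Int b) : v.Int (a * b) := by
  by_cases h0 : a = 0
  · left; rw [h0, zero_mul]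
  by_cases h1 : b = 0
  · left; rw [h1, mul_zero]
  right
  rw [v.map_mul _ _ h0 h1]
  exact add_nonneg (ha.resolve_left h0) (hb.resolve_left h1)

theorem int_neg (v : DVal L) {a : L} (ha : v.Int a) : v.Int (-a) := by
  by_cases h0 : a = 0
  · left; rw [h0, neg_zero]
  right; rw [v_neg v h0]; exact ha.resolve_left h0

theorem int_add (v : DVal L) {a b : L} (ha : v.Int a) (hb : v.Int b) : v.Int (a + b) := by
  by_cases h0 : a = 0
  · rw [h0, zero_add]; exact hb
  by_cases h1 : b = 0
  · rw [h1, add_zero]; exact ha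
  by_cases h2 : a + b = 0
  · exact Or.inl h2
  right
  exact le_trans (le_min (ha.resolve_left h0) (hb.resolve_left h1)) (v.map_add _ _ h0 h1 h2)

theorem int_sub (v : DVal L) {a b : L} (ha : v.Int a) (hb : v.Int b) : v.Int (a - b) := by
  rw [sub_eq_add_neg]; exact int_add v ha (int_neg v hb)

theorem int_pow (v : DVal L) {a : L} (ha : v.Int a) (n : ℕ) : v.Int (a ^ n) := by
  induction n with
  | zero => rw [pow_zero]; exact int_one v
  | succ n ih => rw [pow_succ]; exact int_mul v ih ha

/-- The valuation ring of a divisorial valuation. -/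
noncomputable def vring (v : DVal L) : ValuationSubring L where
  carrier := {a | v.Int a}
  mul_mem' := fun ha hb => int_mul v ha hb
  one_mem' := int_one v
  add_mem' := fun ha hb => int_add v ha hb
  zero_mem' := int_zero v
  neg_mem' := fun ha => int_neg v ha
  mem_or_inv_mem' := fun a => by
    by_cases h0 : a = 0
    · left; exact Or.inl h0
    rcases le_total 0 (v.v a) with h | h
    · left; exact Or.inr h
    · right; right; rw [v_inv v h0]; linarith

theorem mem_vring (v : DVal L) (a : L) : a ∈ vring v ↔ v.Int a := Iff.rfl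

theorem pos_int (v : DVal L) {a : L} (ha : v.Pos a) : v.Int a := by
  rcases ha with h | h
  · exact Or.inl h
  · exact Or.inr h.le

theorem pos_iff_div (v : DVal L) {π : L} (hπ : π ≠ 0) (hv : v.v π = 1) (a : L) :
    v.Pos a ↔ v.Int (a / π) := by
  by_cases h0 : a = 0
  · rw [h0, zero_div]; exact ⟨fun _ => Or.inl rfl, fun _ => Or.inl rfl⟩
  have h1 : a / π ≠ 0 := div_ne_zero h0 hπ
  constructor
  · intro h
    right; rw [v_div v h0 hπ, hv]; have := h.resolve_left h0; omega
  · intro h
    right; have := h.resolve_left h1; rw [v_div v h0 hπ, hv] at this; omega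

theorem pos_add (v : DVal L) {a b : L} (ha : v.Pos a) (hb : v.Pos b) : v.Pos (a + b) := by
  by_cases h0 : a = 0
  · rw [h0, zero_add]; exact hb
  by_cases h1 : b = 0
  · rw [h1, add_zero]; exact ha
  by_cases h2 : a + b = 0
  · exact Or.inl h2
  right
  exact lt_of_lt_of_le (lt_min (ha.resolve_left h0) (hb.resolve_left h1))
    (v.map_add _ _ h0 h1 h2)

theorem pos_mul_int (v : DVal L) {a b : L} (ha : v.Pos a) (hb : v.Int b) : v.Pos (a * b) := by
  by_cases h0 : a = 0
  · left; rw [h0, zero_mul]
  by_cases h1 : b = 0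
  · left; rw [h1, mul_zero]
  right
  rw [v.map_mul _ _ h0 h1]
  exact add_pos_of_pos_of_nonneg (ha.resolve_left h0) (hb.resolve_left h1)

theorem pos_neg (v : DVal L) {a : L} (ha : v.Pos a) : v.Pos (-a) := by
  by_cases h0 : a = 0
  · left; rw [h0, neg_zero]
  right; rw [v_neg v h0]; exact ha.resolve_left h0

/-- If `a` is a unit of the valuation ring and `b` has positive value then `a + b` is a unit. -/
theorem v_add_pos (v : DVal L) {a b : L} (ha : a ≠ 0) (hva : v.v a = 0) (hb : v.Pos b) :
    a + b ≠ 0 ∧ v.v (a + b) = 0 := by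
  have hne : a + b ≠ 0 := by
    intro h
    have : a = -b := eq_neg_of_add_eq_zero_left h
    have h2 : v.Pos a := by rw [this]; exact pos_neg v hb
    have := h2.resolve_left ha
    omega
  refine ⟨hne, ?_⟩
  by_contra hc
  have hi : v.Int (a + b) := int_add v (Or.inr hva.ge) (pos_int v hb)
  have hp : v.Pos (a + b) := Or.inr (lt_of_le_of_ne (hi.resolve_left hne) (Ne.symm hc))
  have h2 : v.Pos a := by
    have : a = (a + b) + (-b) := by ring
    rw [this]; exact pos_add v hp (pos_neg v hb)
  have := h2.resolve_left ha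
  omega

end H73

end LCY
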